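import Mathlib

/-! # Massey products in the cohomology of maximal pro-`p` Galois groups: definitions (helper403) -/

namespace Pool.Agent.H403.W

/-- `F(p)`: the compositum, inside an algebraic closure of `F`, of all finite Galois extensions of `F` whose
degree is a power of `p`. -/
noncomputable def maxPExt (p : ℕ) (F : Type) [Field F] : IntermediateField F (AlgebraicClosure F) :=
  sSup {K | FiniteDimensional F K ∧ IsGalois F K ∧ ∃ k : ℕ, Module.finrank F K = p ^ k}

/-- `G_F(p)`: the Galois group of `F(p) / F`, the maximal pro-`p` Galois group of `F`. -/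
abbrev GFp (p : ℕ) (F : Type) [Field F] : Type := maxPExt p F ≃ₐ[F] maxPExt p F

section

variable {p : ℕ} {F Ω : Type} [Field F] [Field Ω] [Algebra F Ω]

/-- A function on the Galois group of `Ω / F` is continuous (for the Krull topology and the discrete topology
on the set of values): it depends only on the restriction to some finite subextension. -/
def Cont1 {X : Type} (f : (Ω ≃ₐ[F] Ω) → X) : Prop :=
  ∃ E : IntermediateField F Ω, FiniteDimensional F E ∧
    ∀ g g' : Ω ≃ₐ[F] Ω, (∀ x ∈ E, g x = g' x) → f g = f g'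

/-- A function of two elements of the Galois group of `Ω / F` is continuous. -/
def Cont2 {X : Type} (f : (Ω ≃ₐ[F] Ω) → (Ω ≃ₐ[F] Ω) → X) : Prop :=
  ∃ E : IntermediateField F Ω, FiniteDimensional F E ∧
    ∀ g g' h h' : Ω ≃ₐ[F] Ω, (∀ x ∈ E, g x = g' x) → (∀ x ∈ E, h x = h' x) → f g h = f g' h'

/-- The elements of `H¹(G, ℤ/p) = Hom(G, ℤ/p)`, `G` the Galois group of `Ω / F`: the continuous
homomorphisms to `ℤ/p`. -/
def IsH1 (ψ : (Ω ≃ₐ[F] Ω) → ZMod p) : Prop :=
  Cont1 ψ ∧ ∀ g h, ψ (g * h) = ψ g + ψ h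

/-- The continuous `2`-cocycles of `G` with values in the trivial module `ℤ/p`. -/
def IsZ2 (c : (Ω ≃ₐ[F] Ω) → (Ω ≃ₐ[F] Ω) → ZMod p) : Prop :=
  Cont2 c ∧ ∀ g h k, c h k - c (g * h) k + c g (h * k) - c g h = 0

/-- The class in `H²(G, ℤ/p)` of the `2`-cocycle `c` is a sum of `m` cup products of elements of
`H¹(G, ℤ/p)`, that is, its symbol length is at most `m`. -/
def SymbolLengthLE (c : (Ω ≃ₐ[F] Ω) → (Ω ≃ₐ[F] Ω) → ZMod p) (m : ℕ) : Prop :=
  ∃ ψ ψ' : Fin m → (Ω ≃ₐ[F] Ω) → ZMod p, (∀ i, IsH1 (ψ i)) ∧ (∀ i, IsH1 (ψ' i)) ∧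
    ∃ b : (Ω ≃ₐ[F] Ω) → ZMod p, Cont1 b ∧
      ∀ g h, c g h = ∑ i, ψ i g * ψ' i h + (b g + b h - b (g * h))

/-- A defining system for the Massey product `⟨φ₁, …, φₙ⟩` of elements of `H¹(G, ℤ/p)`. The indices run
from `0` to `n` here (from `1` to `n + 1` in the problem): continuous cochains `a i j`, `i < j`,
`(i, j) ≠ (0, n)`, with `a i (i + 1)` representing (equal to) the `i`-th class and
`δ (a i j) = ∑_{i < k < j} (a i k) ∪ (a k j)`. -/
def IsDefiningSystem {n : ℕ} (φ : Fin n → (Ω ≃ₐ[F] Ω) → ZMod p)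
    (a : Fin (n + 1) → Fin (n + 1) → (Ω ≃ₐ[F] Ω) → ZMod p) : Prop :=
  (∀ i j, i < j → ¬ (i = 0 ∧ j = Fin.last n) → Cont1 (a i j)) ∧
  (∀ i : Fin n, a i.castSucc i.succ = φ i) ∧
  ∀ i j, i < j → ¬ (i = 0 ∧ j = Fin.last n) → ∀ g h,
    a i j g + a i j h - a i j (g * h) = ∑ k ∈ Finset.Ioo i j, a i k g * a k j h

/-- The `2`-cocycle whose class is the value of a defining system. -/
def masseyValue {n : ℕ} (a : Fin (n + 1) → Fin (n + 1) → (Ω ≃ₐ[F] Ω) → ZMod p) :
    (Ω ≃ₐ[F] Ω) → (Ω ≃ₐ[F] Ω) → ZMod p :=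
  fun g h => ∑ k ∈ Finset.Ioo 0 (Fin.last n), a 0 k g * a k (Fin.last n) h

end

/-- The Merkurjev-Suslin theorem for the prime `p`, in the form used in the problem: for every field `F`
containing a primitive `p`-th root of unity every class in `H²(G_F(p), ℤ/p)` is a finite sum of cup products
of elements of `H¹(G_F(p), ℤ/p)`. -/
def MerkurjevSuslin (p : ℕ) : Prop :=
  ∀ (F : Type) [Field F], (∃ ζ : F, IsPrimitiveRoot ζ p) →
    ∀ c : GFp p F → GFp p F → ZMod p, IsZ2 c → ∃ m, SymbolLengthLE c m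

/-- There is a constant which bounds the symbol lengths of all elements of all `n`-fold Massey products of
elements of `H¹(G_F(p), ℤ/p)`, for all fields `F` containing a primitive `p`-th root of unity. -/
def MasseyBound (p n : ℕ) : Prop :=
  ∃ M : ℕ, ∀ (F : Type) [Field F], (∃ ζ : F, IsPrimitiveRoot ζ p) →
    ∀ (φ : Fin n → GFp p F → ZMod p) (a : Fin (n + 1) → Fin (n + 1) → GFp p F → ZMod p),
      (∀ i, IsH1 (φ i)) → IsDefiningSystem φ a → SymbolLengthLE (masseyValue a) M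

end Pool.Agent.H403.W
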