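import Pool.Agent.H403.W.W1

/-! # Orbits and minimal polynomials; maximal `p`-extensions (helper403) -/

namespace Pool.Agent.H403.W
open Polynomial

/-- `Ω` is a maximal `p`-extension of `F` (for `F` containing a primitive `p`-th root of unity). -/
structure MaxP (p : ℕ) (F Ω : Type) [Field F] [Field Ω] [Algebra F Ω] : Prop where
  gal : IsGalois F Ω
  deg : ∀ x : Ω, ∃ k, (minpoly F x).natDegree = p ^ k
  root : ∀ x : Ω, ∃ y, y ^ p = x

theorem orb {F Ω : Type} [Field F] [Field Ω] [Algebra F Ω] (H : Subgroup (Ω ≃ₐ[F] Ω))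
    (hH : ∀ x : Ω, (∀ g ∈ H, g x = x) → ∃ y : F, algebraMap F Ω y = x) (x : Ω) (hx : IsIntegral F x) :
    ∃ O : Finset Ω, (∀ y, y ∈ O ↔ ∃ g ∈ H, g x = y) ∧
      (minpoly F x).map (algebraMap F Ω) = ∏ o ∈ O, (X - C o) := by
  classical
  set S : Set Ω := {y | ∃ g ∈ H, g x = y} with hS
  have hroot : ∀ y ∈ S, aeval y (minpoly F x) = 0 := by
    rintro y ⟨g, _, rfl⟩
    have := minpoly.aeval F x
    have h2 : aeval (g x) (minpoly F x) = g (aeval x (minpoly F x)) := by
      rw [← AlgEquiv.coe_toAlgHom, Polynomial.aeval_algHom_apply]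
    rw [h2, this, map_zero]
  have hfin : S.Finite := by
    refine Set.Finite.subset ((minpoly F x).rootSet_finite Ω) fun y hy => ?_
    rw [Polynomial.mem_rootSet]
    exact ⟨minpoly.ne_zero hx, hroot y hy⟩
  set O : Finset Ω := hfin.toFinset with hO
  have hmem : ∀ y, y ∈ O ↔ ∃ g ∈ H, g x = y := fun y => by rw [hO, Set.Finite.mem_toFinset]; rfl
  refine ⟨O, hmem, ?_⟩
  set P : Polynomial Ω := ∏ o ∈ O, (X - C o) with hP
  have hPm : P.Monic := monic_prod_of_monic _ _ fun o _ => monic_X_sub_C o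
  have hfix : ∀ g ∈ H, P.map (g : Ω ≃ₐ[F] Ω).toAlgHom.toRingHom = P := by
    intro g hg
    rw [hP, Polynomial.map_prod]
    refine Finset.prod_bij' (fun o _ => g o) (fun o _ => g⁻¹ o) ?_ ?_ ?_ ?_ ?_
    · intro o ho
      obtain ⟨k, hk, rfl⟩ := (hmem o).1 ho
      exact (hmem _).2 ⟨g * k, H.mul_mem hg hk, rfl⟩
    · intro o ho
      obtain ⟨k, hk, rfl⟩ := (hmem o).1 ho
      exact (hmem _).2 ⟨g⁻¹ * k, H.mul_mem (H.inv_mem hg) hk, rfl⟩
    · intro o _
      change (g⁻¹ * g) o = o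
      rw [inv_mul_cancel]; rfl
    · intro o _
      change (g * g⁻¹) o = o
      rw [mul_inv_cancel]; rfl
    · intro o _
      rw [Polynomial.map_sub, Polynomial.map_X, Polynomial.map_C]
      rfl
  have hcoef : ∀ i, ∃ y : F, algebraMap F Ω y = P.coeff i := by
    intro i
    refine hH _ fun g hg => ?_
    conv_rhs => rw [← hfix g hg]
    rw [Polynomial.coeff_map]
    rfl
  obtain ⟨Q, hQ⟩ : ∃ Q : Polynomial F, Q.map (algebraMap F Ω) = P := by
    have : P ∈ Polynomial.lifts (algebraMap F Ω) := by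
      rw [Polynomial.lifts_iff_coeff_lifts]
      intro i
      obtain ⟨y, hy⟩ := hcoef i
      exact ⟨y, hy⟩
    obtain ⟨Q, hQ⟩ := (Polynomial.mem_lifts _).1 this
    exact ⟨Q, hQ⟩
  have hxO : x ∈ O := (hmem x).2 ⟨1, H.one_mem, rfl⟩
  have hQx : aeval x Q = 0 := by
    rw [← Polynomial.eval_map_algebraMap, hQ, hP, Polynomial.eval_prod]
    exact Finset.prod_eq_zero hxO (by simp)
  have hd1 : (minpoly F x).map (algebraMap F Ω) ∣ P := by
    rw [← hQ]
    exact Polynomial.map_dvd _ (minpoly.dvd F x hQx)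
  have hd2 : P ∣ (minpoly F x).map (algebraMap F Ω) := by
    rw [hP]
    refine Finset.prod_dvd_of_coprime ?_ ?_
    · intro a _ b _ hab
      exact Polynomial.isCoprime_X_sub_C_of_isUnit_sub (sub_ne_zero.2 hab).isUnit
    · intro o ho
      rw [Polynomial.dvd_iff_isRoot, Polynomial.IsRoot, Polynomial.eval_map_algebraMap]
      exact hroot o ((hmem o).1 ho)
  exact Polynomial.eq_of_monic_of_associated ((minpoly.monic hx).map _) hPm (associated_of_dvd_dvd hd1 hd2)

theorem orb_natDegree {F Ω : Type} [Field F] [Field Ω] [Algebra F Ω] {x : Ω} {O : Finset Ω}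
    (h : (minpoly F x).map (algebraMap F Ω) = ∏ o ∈ O, (X - C o)) : (minpoly F x).natDegree = O.card := by
  have := congrArg Polynomial.natDegree h
  rw [Polynomial.natDegree_map, Polynomial.natDegree_prod_of_monic _ _ fun o _ => monic_X_sub_C o] at this
  simpa using this

theorem orb_root {F Ω : Type} [Field F] [Field Ω] [Algebra F Ω] {x : Ω} {O : Finset Ω}
    (h : (minpoly F x).map (algebraMap F Ω) = ∏ o ∈ O, (X - C o)) (y : Ω) (hy : aeval y (minpoly F x) = 0) : y ∈ O := by
  have : Polynomial.eval y ((minpoly F x).map (algebraMap F Ω)) = 0 := by rwa [Polynomial.eval_map_algebraMap]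
  rw [h, Polynomial.eval_prod, Finset.prod_eq_zero_iff] at this
  obtain ⟨o, ho, h0⟩ := this
  simp only [eval_sub, eval_X, eval_C] at h0
  rwa [sub_eq_zero.1 h0]

theorem fixed_sep {F Ω : Type} [Field F] [Field Ω] [Algebra F Ω] (A : IntermediateField F Ω)
    (H : Subgroup (Ω ≃ₐ[F] Ω))
    (hH : ∀ x : Ω, (∀ g ∈ H, g x = x) → ∃ y : F, algebraMap F Ω y = x) (x : A) (hx : IsIntegral F (x : Ω)) :
    (minpoly F x).Separable := by
  obtain ⟨O, hO, hp⟩ := orb H hH (x : Ω) hx
  have hmin : minpoly F x = minpoly F (x : Ω) := IntermediateField.minpoly_eq x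
  have h1 : ((minpoly F x).map (algebraMap F Ω)).Separable := by
    rw [hmin, hp]
    exact Polynomial.separable_prod_X_sub_C_iff'.2 fun a _ b _ h => h
  exact (Polynomial.separable_map (algebraMap F Ω)).1 h1

theorem fixed_splits {F Ω : Type} [Field F] [Field Ω] [Algebra F Ω] (A : IntermediateField F Ω)
    (hA' : ∀ x : Ω, IsIntegral F x → x ∈ A) (H : Subgroup (Ω ≃ₐ[F] Ω))
    (hH : ∀ x : Ω, (∀ g ∈ H, g x = x) → ∃ y : F, algebraMap F Ω y = x) (x : A) (hx : IsIntegral F (x : Ω)) :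
    ((minpoly F x).map (algebraMap F A)).Splits := by
  obtain ⟨O, hO, hp⟩ := orb H hH (x : Ω) hx
  have hmin : minpoly F x = minpoly F (x : Ω) := IntermediateField.minpoly_eq x
  have hOA : ∀ o ∈ O, o ∈ A := by
    intro o ho
    obtain ⟨g, _, rfl⟩ := (hO o).1 ho
    exact hA' _ (hx.map (g : Ω ≃ₐ[F] Ω).toAlgHom)
  have h2 : (minpoly F x).map (algebraMap F A) = ∏ o : O, (X - C (⟨o.1, hOA o.1 o.2⟩ : A)) := by
    apply Polynomial.map_injective (algebraMap A Ω) (algebraMap A Ω).injective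
    rw [Polynomial.map_map, ← IsScalarTower.algebraMap_eq, hmin, hp, Polynomial.map_prod]
    rw [← Finset.prod_coe_sort]
    refine Finset.prod_congr rfl fun o _ => ?_
    rw [Polynomial.map_sub, Polynomial.map_X, Polynomial.map_C]
    rfl
  rw [h2]
  exact Polynomial.Splits.prod fun o _ => Polynomial.Splits.X_sub_C _

/-- An extension whose elements are integral over the fixed field of a group is Galois over it. -/
theorem isGalois_of_fixed {F Ω : Type} [Field F] [Field Ω] [Algebra F Ω] (A : IntermediateField F Ω)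
    (hA : ∀ x ∈ A, IsIntegral F x) (hA' : ∀ x : Ω, IsIntegral F x → x ∈ A)
    (H : Subgroup (Ω ≃ₐ[F] Ω))
    (hH : ∀ x : Ω, (∀ g ∈ H, g x = x) → ∃ y : F, algebraMap F Ω y = x) : IsGalois F A := by
  have hsep : Algebra.IsSeparable F A := ⟨fun x => fixed_sep A H hH x (hA x x.2)⟩
  have halg : Algebra.IsAlgebraic F A := by
    refine ⟨fun x => ?_⟩
    have h1 := hA x x.2
    have h2 : IsIntegral F x := (isIntegral_algHom_iff A.val A.val.injective).1 h1
    exact h2.isAlgebraic
  have hnor : Normal F A :=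
    { toIsAlgebraic := halg
      splits' := fun x => fixed_splits A hA' H hH x (hA x x.2) }
  exact { }

end Pool.Agent.H403.W
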