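import Pool.Agent.H403.W.W2

/-! # The maximal `p`-extension `F(p)` (helper403) -/

set_option linter.all false

namespace Pool.Agent.H403.W
open Polynomial IntermediateField

variable {p : ℕ} {F : Type} [Field F]

/-- finite Galois extensions of `p`-power degree -/
def PS (p : ℕ) {F Ω : Type} [Field F] [Field Ω] [Algebra F Ω] (K : IntermediateField F Ω) : Prop :=
  FiniteDimensional F K ∧ IsGalois F K ∧ ∃ k : ℕ, Module.finrank F K = p ^ k

section
variable {Ω : Type} [Field Ω] [Algebra F Ω]

theorem PS.bot : PS p (⊥ : IntermediateField F Ω) :=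
  ⟨inferInstance, inferInstance, 0, by rw [pow_zero]; exact IntermediateField.finrank_bot⟩

theorem PS.sup (hp : p.Prime) {K K' : IntermediateField F Ω} (h : PS p K) (h' : PS p K') : PS p (K ⊔ K') := by
  obtain ⟨h1, h2, k, hk⟩ := h
  obtain ⟨h1', h2', k', hk'⟩ := h'
  have hfd : FiniteDimensional F (K ⊔ K' : IntermediateField F Ω) := IntermediateField.finiteDimensional_sup K K'
  have hnor : Normal F (K ⊔ K' : IntermediateField F Ω) := IntermediateField.normal_sup F Ω K K'
  have hsep : Algebra.IsSeparable F (K ⊔ K' : IntermediateField F Ω) := IntermediateField.isSeparable_sup F Ω K K'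
  have hgal : IsGalois F (K ⊔ K' : IntermediateField F Ω) := { }
  refine ⟨hfd, hgal, ?_⟩
  -- the Galois group embeds in the product
  let KK : IntermediateField F (K ⊔ K' : IntermediateField F Ω) := IntermediateField.restrict (le_sup_left : K ≤ K ⊔ K')
  let KK' : IntermediateField F (K ⊔ K' : IntermediateField F Ω) := IntermediateField.restrict (le_sup_right : K' ≤ K ⊔ K')
  have e1 : K ≃ₐ[F] KK := IntermediateField.restrictAlgEquiv (le_sup_left : K ≤ K ⊔ K')
  have e2 : K' ≃ₐ[F] KK' := IntermediateField.restrictAlgEquiv (le_sup_right : K' ≤ K ⊔ K')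
  haveI : IsGalois F KK := IsGalois.of_algEquiv e1
  haveI : IsGalois F KK' := IsGalois.of_algEquiv e2
  haveI : FiniteDimensional F KK := Module.Finite.equiv e1.toLinearEquiv
  haveI : FiniteDimensional F KK' := Module.Finite.equiv e2.toLinearEquiv
  let r : ((K ⊔ K' : IntermediateField F Ω) ≃ₐ[F] (K ⊔ K' : IntermediateField F Ω)) →* (KK ≃ₐ[F] KK) × (KK' ≃ₐ[F] KK') :=
    (AlgEquiv.restrictNormalHom KK).prod (AlgEquiv.restrictNormalHom KK')
  have hinj : Function.Injective r := by
    rw [injective_iff_map_eq_one]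
    intro g hg
    have hg1 : AlgEquiv.restrictNormalHom KK g = 1 := congrArg Prod.fst hg
    have hg2 : AlgEquiv.restrictNormalHom KK' g = 1 := congrArg Prod.snd hg
    have hfix : ∀ (T : IntermediateField F (K ⊔ K' : IntermediateField F Ω)) [IsGalois F T],
        AlgEquiv.restrictNormalHom T g = 1 → ∀ x ∈ T, g x = x := by
      intro T _ hT x hx
      have h3 := AlgEquiv.restrictNormal_commutes g T ⟨x, hx⟩
      have h4 : g.restrictNormal T = 1 := hT
      rw [h4] at h3
      exact h3.symm
    have hle : KK ⊔ KK' ≤ IntermediateField.fixedField (Subgroup.zpowers g) := by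
      refine sup_le ?_ ?_
      · intro x hx
        have := hfix KK hg1 x hx
        rw [IntermediateField.mem_fixedField_iff]
        intro f hf
        have hst : Subgroup.zpowers g ≤ MulAction.stabilizer _ x := (Subgroup.zpowers_le).2 this
        exact hst hf
      · intro x hx
        have := hfix KK' hg2 x hx
        rw [IntermediateField.mem_fixedField_iff]
        intro f hf
        have hst : Subgroup.zpowers g ≤ MulAction.stabilizer _ x := (Subgroup.zpowers_le).2 this
        exact hst hf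
    have htop : KK ⊔ KK' = ⊤ := by
      apply IntermediateField.lift_injective (K ⊔ K')
      rw [IntermediateField.lift_sup, IntermediateField.lift_top, IntermediateField.lift_restrict,
        IntermediateField.lift_restrict]
    ext x
    have hx : x ∈ IntermediateField.fixedField (Subgroup.zpowers g) := hle (htop ▸ IntermediateField.mem_top)
    rw [IntermediateField.mem_fixedField_iff] at hx
    exact congrArg Subtype.val (hx g (Subgroup.mem_zpowers g))
  have hdvd := Subgroup.card_dvd_of_injective r hinj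
  rw [Nat.card_prod, IsGalois.card_aut_eq_finrank, IsGalois.card_aut_eq_finrank, IsGalois.card_aut_eq_finrank,
    ← e1.toLinearEquiv.finrank_eq, ← e2.toLinearEquiv.finrank_eq, hk, hk', ← pow_add] at hdvd
  obtain ⟨m, _, hm⟩ := (Nat.dvd_prime_pow hp).1 hdvd
  exact ⟨m, hm⟩

theorem step (hp : p.Prime) {ζ : F} (hζ : IsPrimitiveRoot ζ p) (E : IntermediateField F Ω) (z : Ω)
    (hz : z ^ p ∈ E) (h1 : FiniteDimensional F E) (h2 : Algebra.IsSeparable F E) (h3 : ∃ k, Module.finrank F E = p ^ k) :
    ∃ E' : IntermediateField F Ω, E ≤ E' ∧ z ∈ E' ∧ FiniteDimensional F E' ∧ Algebra.IsSeparable F E' ∧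
      ∃ k, Module.finrank F E' = p ^ k := by
  by_cases hv : ∃ v : E, v ^ p = (⟨z ^ p, hz⟩ : E)
  · obtain ⟨v, hv⟩ := hv
    refine ⟨E, le_rfl, ?_, h1, h2, h3⟩
    have hv' : (v : Ω) ^ p = z ^ p := congrArg Subtype.val hv
    by_cases hz0 : z = 0
    · rw [hz0]; exact E.zero_mem
    have hv0 : (v : Ω) ≠ 0 := by
      intro h0
      rw [h0, zero_pow hp.ne_zero] at hv'
      exact hz0 (pow_eq_zero_iff hp.ne_zero |>.1 hv'.symm)
    have h5 : (z / v) ^ p = 1 := by rw [div_pow, hv', div_self (pow_ne_zero _ hz0)]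
    haveI : NeZero p := ⟨hp.ne_zero⟩
    have hζ' : IsPrimitiveRoot (algebraMap F Ω ζ) p := hζ.map_of_injective (algebraMap F Ω).injective
    obtain ⟨i, _, hi⟩ := hζ'.eq_pow_of_pow_eq_one h5
    have : z = (algebraMap F Ω ζ) ^ i * v := by rw [hi, div_mul_cancel₀ _ hv0]
    rw [this]
    exact E.mul_mem (pow_mem (E.algebraMap_mem ζ) i) v.2
  · have hv1 : ∀ v : E, v ^ p ≠ (⟨z ^ p, hz⟩ : E) := fun v h => hv ⟨v, h⟩
    have hirr := X_pow_sub_C_irreducible_of_prime hp hv1
    have hroot : aeval z (X ^ p - C (⟨z ^ p, hz⟩ : E)) = 0 := by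
      rw [map_sub, map_pow, aeval_X, aeval_C]
      exact sub_self _
    have hmon : (X ^ p - C (⟨z ^ p, hz⟩ : E)).Monic := monic_X_pow_sub_C _ hp.ne_zero
    have hmin : X ^ p - C (⟨z ^ p, hz⟩ : E) = minpoly E z := minpoly.eq_of_irreducible_of_monic hirr hroot hmon
    have hint : IsIntegral E z := ⟨_, hmon, hroot⟩
    haveI : NeZero p := ⟨hp.ne_zero⟩
    have hζ' : IsPrimitiveRoot (algebraMap F E ζ) p := hζ.map_of_injective (algebraMap F E).injective
    haveI hpE : NeZero (p : E) := hζ'.neZero'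
    have hsep : (minpoly E z).Separable := by
      rw [← hmin]
      refine separable_X_pow_sub_C _ hpE.out ?_
      intro h0
      exact hv1 0 (by rw [h0, zero_pow hp.ne_zero])
    haveI : FiniteDimensional E E⟮z⟯ := IntermediateField.adjoin.finiteDimensional hint
    have hfr : Module.finrank E E⟮z⟯ = p := by
      rw [IntermediateField.adjoin.finrank hint, ← hmin, natDegree_X_pow_sub_C]
    haveI hsepz : Algebra.IsSeparable E E⟮z⟯ :=
      (IntermediateField.isSeparable_adjoin_simple_iff_isSeparable (F := E) (E := Ω) (x := z)).2 hsep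
    obtain ⟨k, hk⟩ := h3
    refine ⟨IntermediateField.restrictScalars F E⟮z⟯, ?_, ?_, ?_, ?_, k + 1, ?_⟩
    · intro x hx
      exact E⟮z⟯.algebraMap_mem (⟨x, hx⟩ : E)
    · exact IntermediateField.mem_adjoin_simple_self E z
    · exact (Module.Finite.trans E E⟮z⟯ : Module.Finite F E⟮z⟯)
    · exact (Algebra.IsSeparable.trans F E E⟮z⟯ : Algebra.IsSeparable F E⟮z⟯)
    · have := Module.finrank_mul_finrank F E E⟮z⟯
      rw [hk, hfr] at this
      rw [pow_succ, this]
      rfl

theorem steps (hp : p.Prime) {ζ : F} (hζ : IsPrimitiveRoot ζ p) (K : IntermediateField F Ω) (T : Finset Ω)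
    (hT : ∀ z ∈ T, z ^ p ∈ K) (h1 : FiniteDimensional F K) (h2 : Algebra.IsSeparable F K)
    (h3 : ∃ k, Module.finrank F K = p ^ k) :
    ∃ E' : IntermediateField F Ω, K ≤ E' ∧ (∀ z ∈ T, z ∈ E') ∧ FiniteDimensional F E' ∧ Algebra.IsSeparable F E' ∧
      ∃ k, Module.finrank F E' = p ^ k := by
  classical
  induction T using Finset.induction_on with
  | empty => exact ⟨K, le_rfl, by simp, h1, h2, h3⟩
  | insert z T hz ih =>
    obtain ⟨E, hKE, hE, a1, a2, a3⟩ := ih fun w hw => hT w (Finset.mem_insert_of_mem hw)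
    obtain ⟨E', hEE', hzE', b1, b2, b3⟩ := step hp hζ E z (hKE (hT z (Finset.mem_insert_self z T))) a1 a2 a3
    refine ⟨E', hKE.trans hEE', ?_, b1, b2, b3⟩
    intro w hw
    rcases Finset.mem_insert.1 hw with rfl | hw
    · exact hzE'
    · exact hEE' (hE w hw)

theorem of_le (hp : p.Prime) {K E : IntermediateField F Ω} (hKE : K ≤ E) (h1 : FiniteDimensional F E)
    (h2 : Algebra.IsSeparable F E) (h3 : ∃ k, Module.finrank F E = p ^ k) :
    FiniteDimensional F K ∧ Algebra.IsSeparable F K ∧ ∃ k, Module.finrank F K = p ^ k := by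
  letI : Algebra K E := (IntermediateField.inclusion hKE).toRingHom.toAlgebra
  haveI : IsScalarTower F K E := IsScalarTower.of_algebraMap_eq fun _ => rfl
  have a1 : FiniteDimensional F K := FiniteDimensional.of_injective (IntermediateField.inclusion hKE).toLinearMap
    (IntermediateField.inclusion hKE).injective
  have a2 : Algebra.IsSeparable F K := Algebra.IsSeparable.of_algHom F E (IntermediateField.inclusion hKE)
  refine ⟨a1, a2, ?_⟩
  obtain ⟨k, hk⟩ := h3
  have h4 : Module.finrank F K ∣ p ^ k := by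
    rw [← hk]
    exact Dvd.intro _ (Module.finrank_mul_finrank F K E)
  obtain ⟨m, _, hm⟩ := (Nat.dvd_prime_pow hp).1 h4
  exact ⟨m, hm⟩

end

section

variable (p F)

theorem mem_maxPExt (hp : p.Prime) {x : AlgebraicClosure F} : x ∈ maxPExt p F ↔ ∃ K : IntermediateField F (AlgebraicClosure F), PS p K ∧ x ∈ K := by
  have hne : ({K | PS p K} : Set (IntermediateField F (AlgebraicClosure F))).Nonempty := ⟨⊥, PS.bot⟩
  have hdir : DirectedOn (· ≤ ·) ({K | PS p K} : Set (IntermediateField F (AlgebraicClosure F))) := by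
    intro K hK K' hK'
    exact ⟨K ⊔ K', hK.sup hp hK', le_sup_left, le_sup_right⟩
  have := hne.to_subtype
  change x ∈ sSup {K | PS p K} ↔ _
  rw [sSup_eq_iSup', ← SetLike.mem_coe, coe_iSup_of_directed hdir.directed_val, Set.mem_iUnion, Subtype.exists]
  simp only [Set.mem_setOf_eq, SetLike.mem_coe, exists_prop]

theorem maxPExt_gal : IsGalois F (maxPExt p F) := by
  have e : maxPExt p F = ⨆ K : {K : IntermediateField F (AlgebraicClosure F) // PS p K}, K.1 := sSup_eq_iSup' _
  have h1 : ∀ K : {K : IntermediateField F (AlgebraicClosure F) // PS p K}, IsGalois F K.1 := fun K => K.2.2.1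
  rw [e]
  have hn : Normal F (⨆ K : {K : IntermediateField F (AlgebraicClosure F) // PS p K}, K.1 : IntermediateField F (AlgebraicClosure F)) :=
    IntermediateField.normal_iSup (h := fun K => (h1 K).to_normal)
  have hs : Algebra.IsSeparable F (⨆ K : {K : IntermediateField F (AlgebraicClosure F) // PS p K}, K.1 : IntermediateField F (AlgebraicClosure F)) :=
    IntermediateField.isSeparable_iSup (h := fun K => (h1 K).to_isSeparable)
  exact { }

theorem maxPExt_deg (hp : p.Prime) (x : maxPExt p F) : ∃ k, (minpoly F x).natDegree = p ^ k := by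
  obtain ⟨K, hK, hx⟩ := (mem_maxPExt p F hp).1 x.2
  obtain ⟨h1, h2, k, hk⟩ := hK
  have e : minpoly F x = minpoly F (⟨x.1, hx⟩ : K) := by
    rw [IntermediateField.minpoly_eq, IntermediateField.minpoly_eq]
  have h4 : (minpoly F (⟨x.1, hx⟩ : K)).natDegree ∣ Module.finrank F K := minpoly.degree_dvd (Algebra.IsIntegral.isIntegral _)
  rw [hk] at h4
  obtain ⟨m, _, hm⟩ := (Nat.dvd_prime_pow hp).1 h4
  exact ⟨m, by rw [e, hm]⟩

theorem maxPExt_root (hp : p.Prime) {ζ : F} (hζ : IsPrimitiveRoot ζ p) (x : maxPExt p F) : ∃ y, y ^ p = x := by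
  classical
  obtain ⟨K, ⟨h1, h2, h3⟩, hx⟩ := (mem_maxPExt p F hp).1 x.2
  obtain ⟨y, hy⟩ := IsAlgClosed.exists_pow_nat_eq (x : AlgebraicClosure F) hp.pos
  set f := minpoly F (x : AlgebraicClosure F) with hf
  have hint : IsIntegral F (x : AlgebraicClosure F) := Algebra.IsIntegral.isIntegral _
  have hf0 : f ≠ 0 := minpoly.ne_zero hint
  set g := expand F p f with hg
  have hg0 : g ≠ 0 := (expand_ne_zero hp.pos).2 hf0
  have hgroot : ∀ z : AlgebraicClosure F, z ∈ g.rootSet (AlgebraicClosure F) → z ^ p ∈ K := by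
    intro z hz
    rw [mem_rootSet] at hz
    have h5 : aeval (z ^ p) f = 0 := by rw [← expand_aeval]; exact hz.2
    have h6 : ((minpoly F (⟨x.1, hx⟩ : K)).map (algebraMap F K)).Splits := (h2.to_normal).splits _
    have e : f = minpoly F (⟨x.1, hx⟩ : K) := by
      rw [IntermediateField.minpoly_eq]
    rw [e] at h5
    have h7 : eval (z ^ p) ((((minpoly F (⟨x.1, hx⟩ : K)).map (algebraMap F K))).map (algebraMap K (AlgebraicClosure F))) = 0 := by
      rw [Polynomial.map_map, ← IsScalarTower.algebraMap_eq, eval_map_algebraMap]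
      exact h5
    have h9 : (minpoly F (⟨x.1, hx⟩ : K)).map (algebraMap F K) ≠ 0 :=
      ((minpoly.monic (Algebra.IsIntegral.isIntegral _)).map _).ne_zero
    obtain ⟨w, hw⟩ := h6.mem_range_of_isRoot h9 h7
    rw [← hw]
    exact w.2
  have hyg : y ∈ g.rootSet (AlgebraicClosure F) := by
    rw [mem_rootSet]
    refine ⟨hg0, ?_⟩
    rw [hg, expand_aeval, hy]
    exact minpoly.aeval F _
  set R := adjoin F (g.rootSet (AlgebraicClosure F)) with hR
  obtain ⟨E', hKE', hE', b1, b2, b3⟩ := steps hp hζ K (g.rootSet_finite (AlgebraicClosure F)).toFinset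
    (fun z hz => hgroot z ((Set.Finite.mem_toFinset _).1 hz)) h1 h2.to_isSeparable h3
  have hRE : R ≤ E' := by
    rw [hR, adjoin_le_iff]
    intro z hz
    exact hE' z ((Set.Finite.mem_toFinset _).2 hz)
  obtain ⟨c1, c2, c3⟩ := of_le hp (sup_le hKE' hRE) b1 b2 b3
  have hRn : Normal F R := by
    haveI : IsSplittingField F R g := adjoin_rootSet_isSplittingField (IsAlgClosed.splits _)
    exact Normal.of_isSplittingField g
  have hn : Normal F (K ⊔ R : IntermediateField F (AlgebraicClosure F)) := by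
    haveI := h2.to_normal
    exact IntermediateField.normal_sup F (AlgebraicClosure F) K R
  have hPS : PS p (K ⊔ R) := ⟨c1, { }, c3⟩
  have hyR : y ∈ K ⊔ R := (le_sup_right : R ≤ K ⊔ R) (subset_adjoin F _ hyg)
  exact ⟨⟨y, (mem_maxPExt p F hp).2 ⟨_, hPS, hyR⟩⟩, Subtype.ext hy⟩

theorem maxPExt_maxP (hp : p.Prime) {ζ : F} (hζ : IsPrimitiveRoot ζ p) : MaxP p F (maxPExt p F) :=
  ⟨maxPExt_gal p F, maxPExt_deg p F hp, maxPExt_root p F hp hζ⟩

end

end Pool.Agent.H403.W
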