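import Pool.Agent.H403.W.W3

/-! # Ultraproducts of field extensions (helper403) -/

set_option linter.all false

namespace Pool.Agent.H403.W
open Polynomial IntermediateField Filter

noncomputable section

/-- a nonprincipal ultrafilter on the natural numbers -/
abbrev UU : Ultrafilter ℕ := Filter.hyperfilter ℕ

/-- the ideal of sequences which vanish almost everywhere -/
def II (K : ℕ → Type) [∀ m, Field (K m)] : Ideal (∀ m, K m) where
  carrier := {f | ∀ᶠ m in (UU : Filter ℕ), f m = 0}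
  zero_mem' := Eventually.of_forall fun _ => rfl
  add_mem' := by
    intro a b ha hb
    filter_upwards [ha, hb] with m h1 h2
    rw [Pi.add_apply, h1, h2, add_zero]
  smul_mem' := by
    intro c a ha
    filter_upwards [ha] with m h1
    rw [smul_eq_mul, Pi.mul_apply, h1, mul_zero]

theorem mem_II {K : ℕ → Type} [∀ m, Field (K m)] {f : ∀ m, K m} : f ∈ II K ↔ ∀ᶠ m in (UU : Filter ℕ), f m = 0 := Iff.rfl

instance II_max (K : ℕ → Type) [∀ m, Field (K m)] : (II K).IsMaximal := by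
  rw [Ideal.isMaximal_iff]
  refine ⟨?_, ?_⟩
  · intro h
    obtain ⟨m, hm⟩ := (mem_II.1 h).exists
    exact one_ne_zero hm
  · intro J x hJ hx hxJ
    have h1 : ∀ᶠ m in (UU : Filter ℕ), x m ≠ 0 := Ultrafilter.eventually_not.2 hx
    have h2 : 1 - (fun m => (x m)⁻¹) * x ∈ II K := by
      rw [mem_II]
      filter_upwards [h1] with m hm
      rw [Pi.sub_apply, Pi.mul_apply, Pi.one_apply, inv_mul_cancel₀ hm, sub_self]
    have h3 := J.add_mem (hJ h2) (J.mul_mem_left (fun m => (x m)⁻¹) hxJ)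
    rwa [sub_add_cancel] at h3

/-- ultraproduct data -/
structure UP (F Ω : ℕ → Type) [∀ m, Field (F m)] [∀ m, Field (Ω m)] [∀ m, Algebra (F m) (Ω m)]
    (UF UO : Type) [Field UF] [Field UO] [Algebra UF UO] where
  pF : (∀ m, F m) →+* UF
  pO : (∀ m, Ω m) →+* UO
  surjF : Function.Surjective pF
  surjO : Function.Surjective pO
  kerF : ∀ f, pF f = 0 ↔ ∀ᶠ m in (UU : Filter ℕ), f m = 0
  kerO : ∀ f, pO f = 0 ↔ ∀ᶠ m in (UU : Filter ℕ), f m = 0
  comm : ∀ f, algebraMap UF UO (pF f) = pO (fun m => algebraMap (F m) (Ω m) (f m))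

theorem exists_UP (F Ω : ℕ → Type) [∀ m, Field (F m)] [∀ m, Field (Ω m)] [∀ m, Algebra (F m) (Ω m)] :
    ∃ (UF UO : Type) (_ : Field UF) (_ : Field UO) (_ : Algebra UF UO), Nonempty (UP F Ω UF UO) := by
  letI i1 : Field ((∀ m, F m) ⧸ II F) := Ideal.Quotient.field (II F)
  letI i2 : Field ((∀ m, Ω m) ⧸ II Ω) := Ideal.Quotient.field (II Ω)
  let r : (∀ m, F m) →+* (∀ m, Ω m) :=
    Pi.ringHom fun m => (algebraMap (F m) (Ω m)).comp (Pi.evalRingHom F m)
  let φ : ((∀ m, F m) ⧸ II F) →+* ((∀ m, Ω m) ⧸ II Ω) :=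
    Ideal.Quotient.lift (II F) ((Ideal.Quotient.mk (II Ω)).comp r) (by
      intro a ha
      rw [RingHom.comp_apply, Ideal.Quotient.eq_zero_iff_mem, mem_II]
      filter_upwards [mem_II.1 ha] with m hm
      change algebraMap (F m) (Ω m) (a m) = 0
      rw [hm, map_zero])
  letI i3 : Algebra ((∀ m, F m) ⧸ II F) ((∀ m, Ω m) ⧸ II Ω) := φ.toAlgebra
  refine ⟨_, _, i1, i2, i3, ⟨⟨Ideal.Quotient.mk _, Ideal.Quotient.mk _, Ideal.Quotient.mk_surjective,
    Ideal.Quotient.mk_surjective, ?_, ?_, ?_⟩⟩⟩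
  · intro f
    rw [Ideal.Quotient.eq_zero_iff_mem, mem_II]
  · intro f
    rw [Ideal.Quotient.eq_zero_iff_mem, mem_II]
  · intro f
    rfl

section
variable {F Ω : ℕ → Type} [∀ m, Field (F m)] [∀ m, Field (Ω m)] [∀ m, Algebra (F m) (Ω m)]
    {UF UO : Type} [Field UF] [Field UO] [Algebra UF UO] (u : UP F Ω UF UO)

theorem UP.eqO {x y : ∀ m, Ω m} : u.pO x = u.pO y ↔ ∀ᶠ m in (UU : Filter ℕ), x m = y m := by
  rw [← sub_eq_zero, ← map_sub, u.kerO]
  simp only [Pi.sub_apply, sub_eq_zero]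

theorem UP.eqF {x y : ∀ m, F m} : u.pF x = u.pF y ↔ ∀ᶠ m in (UU : Filter ℕ), x m = y m := by
  rw [← sub_eq_zero, ← map_sub, u.kerF]
  simp only [Pi.sub_apply, sub_eq_zero]

theorem UP.prim (u : UP F Ω UF UO) {p : ℕ} (hp : p.Prime) (h : ∀ m, ∃ ζ : F m, IsPrimitiveRoot ζ p) : ∃ ζ : UF, IsPrimitiveRoot ζ p := by
  choose ζ hζ using h
  refine ⟨u.pF ζ, ?_⟩
  have h1 : u.pF ζ ^ p = 1 := by
    rw [← map_pow, ← map_one u.pF, u.eqF]
    exact Eventually.of_forall fun m => (hζ m).pow_eq_one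
  have h2 : u.pF ζ ≠ 1 := by
    intro h
    rw [← map_one u.pF, u.eqF] at h
    obtain ⟨m, hm⟩ := h.exists
    exact (hζ m).ne_one hp.one_lt hm
  haveI : Fact p.Prime := ⟨hp⟩
  rw [← orderOf_eq_prime h1 h2]
  exact IsPrimitiveRoot.orderOf _

/-- the group of sequences of automorphisms -/
abbrev PG (F Ω : ℕ → Type) [∀ m, Field (F m)] [∀ m, Field (Ω m)] [∀ m, Algebra (F m) (Ω m)] : Type :=
  ∀ m, Ω m ≃ₐ[F m] Ω m

theorem UP.exists_act1 (g : PG F Ω) : ∃ a : UO →ₐ[UF] UO, ∀ x, a (u.pO x) = u.pO (fun m => g m (x m)) := by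
  let r : (∀ m, Ω m) →+* (∀ m, Ω m) :=
    Pi.ringHom fun m => ((g m : Ω m ≃ₐ[F m] Ω m) : Ω m →+* Ω m).comp (Pi.evalRingHom Ω m)
  have hker : RingHom.ker u.pO ≤ RingHom.ker (u.pO.comp r) := by
    intro x hx
    rw [RingHom.mem_ker, u.kerO] at hx
    rw [RingHom.mem_ker, RingHom.comp_apply, u.kerO]
    filter_upwards [hx] with m hm
    change g m (x m) = 0
    rw [hm, map_zero]
  let a := RingHom.liftOfSurjective u.pO u.surjO ⟨u.pO.comp r, hker⟩
  have ha : ∀ x, a (u.pO x) = u.pO (fun m => g m (x m)) := fun x =>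
    RingHom.liftOfRightInverse_comp_apply _ _ _ _ x
  refine ⟨{ a with commutes' := ?_ }, ha⟩
  intro c
  obtain ⟨f, rfl⟩ := u.surjF c
  rw [u.comm]
  refine (ha _).trans ?_
  congr 1
  funext m
  exact (g m).commutes _

def UP.act1 (g : PG F Ω) : UO →ₐ[UF] UO := (u.exists_act1 g).choose

theorem UP.act1_apply (g : PG F Ω) (x : ∀ m, Ω m) : u.act1 g (u.pO x) = u.pO (fun m => g m (x m)) :=
  (u.exists_act1 g).choose_spec x

theorem UP.act1_mul (g h : PG F Ω) (x : UO) : u.act1 (g * h) x = u.act1 g (u.act1 h x) := by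
  obtain ⟨x, rfl⟩ := u.surjO x
  rw [u.act1_apply, u.act1_apply, u.act1_apply]
  rfl

theorem UP.act1_one (x : UO) : u.act1 1 x = x := by
  obtain ⟨x, rfl⟩ := u.surjO x
  rw [u.act1_apply]
  rfl

/-- the action on the ultraproduct -/
def UP.act : PG F Ω →* (UO ≃ₐ[UF] UO) where
  toFun g := AlgEquiv.ofAlgHom (u.act1 g) (u.act1 g⁻¹)
    (by ext x; change u.act1 g (u.act1 g⁻¹ x) = x; rw [← u.act1_mul, mul_inv_cancel, u.act1_one])
    (by ext x; change u.act1 g⁻¹ (u.act1 g x) = x; rw [← u.act1_mul, inv_mul_cancel, u.act1_one])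
  map_one' := by ext x; exact u.act1_one x
  map_mul' g h := by ext x; exact u.act1_mul g h x

theorem UP.act_apply (g : PG F Ω) (x : ∀ m, Ω m) : u.act g (u.pO x) = u.pO (fun m => g m (x m)) := u.act1_apply g x

theorem UP.fixed (hG : ∀ m, IsGalois (F m) (Ω m)) (x : UO) (h : ∀ g ∈ u.act.range, g x = x) :
    ∃ y : UF, algebraMap UF UO y = x := by
  classical
  obtain ⟨x, rfl⟩ := u.surjO x
  have h1 : ∀ m, ∃ g : Ω m ≃ₐ[F m] Ω m, g (x m) = x m → ∃ y : F m, algebraMap (F m) (Ω m) y = x m := by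
    intro m
    by_contra hc
    push Not at hc
    have h2 : x m ∈ Set.range (algebraMap (F m) (Ω m)) := by
      haveI := hG m
      rw [InfiniteGalois.mem_range_algebraMap_iff_fixed]
      intro g
      exact (hc g).1
    obtain ⟨y, hy⟩ := h2
    exact (hc 1).2 y hy
  choose g hg using h1
  have h2 := h (u.act g) ⟨g, rfl⟩
  rw [u.act_apply, u.eqO] at h2
  have h3 : ∀ m, ∃ y : F m, g m (x m) = x m → algebraMap (F m) (Ω m) y = x m := by
    intro m
    by_cases hm : g m (x m) = x m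
    · obtain ⟨y, hy⟩ := hg m hm
      exact ⟨y, fun _ => hy⟩
    · exact ⟨0, fun h => absurd h hm⟩
  choose y hy using h3
  refine ⟨u.pF y, ?_⟩
  rw [u.comm, u.eqO]
  filter_upwards [h2] with m hm
  exact hy m hm

end

/-- transfer of universal statements -/
theorem transfer {X : ℕ → Type} [∀ m, Nonempty (X m)] {P : ∀ m, X m → Prop}
    (h : ∀ x : ∀ m, X m, ∀ᶠ m in (UU : Filter ℕ), P m (x m)) : ∀ᶠ m in (UU : Filter ℕ), ∀ x, P m x := by
  by_contra hc
  rw [← Ultrafilter.eventually_not] at hc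
  have h1 : ∀ m, ∃ x : X m, (¬ ∀ x, P m x) → ¬ P m x := by
    intro m
    by_cases hm : ∀ x, P m x
    · exact ⟨Classical.arbitrary _, fun h => absurd hm h⟩
    · have hm' := hm
      push Not at hm
      obtain ⟨x, hx⟩ := hm
      exact ⟨x, fun _ => hx⟩
  choose x hx using h1
  obtain ⟨m, h2, h3⟩ := ((h x).and hc).exists
  exact hx m h3 h2

theorem transfer2 {X : ℕ → Type} [∀ m, Nonempty (X m)] {P : ∀ m, X m → X m → Prop}
    (h : ∀ x y : ∀ m, X m, ∀ᶠ m in (UU : Filter ℕ), P m (x m) (y m)) : ∀ᶠ m in (UU : Filter ℕ), ∀ x y, P m x y := by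
  have h1 := transfer (X := fun m => X m × X m) (P := fun m z => P m z.1 z.2)
    fun z => h (fun m => (z m).1) (fun m => (z m).2)
  filter_upwards [h1] with m hm x y
  exact hm (x, y)

end

end Pool.Agent.H403.W
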