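import Pool.Agent.H403.W.W4

/-! # The algebraic part of an ultraproduct of maximal `p`-extensions (helper403) -/

set_option linter.all false

namespace Pool.Agent.H403.W
open Polynomial IntermediateField Filter

noncomputable section

theorem agree {K A B : Type} [Field K] [Field A] [Algebra K A] [Field B] [Algebra K B] (σ τ : A →ₐ[K] B) (θ : A) (h : σ θ = τ θ) (x : A)
    (hx : x ∈ K⟮θ⟯) : σ x = τ x := by
  induction hx using IntermediateField.adjoin_induction with
  | mem x hx => rw [Set.mem_singleton_iff.1 hx, h]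
  | algebraMap x => rw [σ.commutes, τ.commutes]
  | add x y _ _ hx hy => rw [map_add, map_add, hx, hy]
  | inv x _ hx => rw [map_inv₀, map_inv₀, hx]
  | mul x y _ _ hx hy => rw [map_mul, map_mul, hx, hy]

theorem exists_gen {K A : Type} [Field K] [Field A] [Algebra K A] [Algebra.IsSeparable K A] (E : IntermediateField K A)
    [FiniteDimensional K E] : ∃ θ : A, E = K⟮θ⟯ := by
  haveI : Algebra.IsSeparable K E := inferInstance
  obtain ⟨α, hα⟩ := Field.exists_primitive_element K E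
  refine ⟨α, ?_⟩
  rw [← IntermediateField.lift_adjoin_simple, hα, IntermediateField.lift_top]

section
variable {F Ω : ℕ → Type} [∀ m, Field (F m)] [∀ m, Field (Ω m)] [∀ m, Algebra (F m) (Ω m)]
    {UF UO : Type} [Field UF] [Field UO] [Algebra UF UO] (u : UP F Ω UF UO)

theorem UP.orbit (hG : ∀ m, IsGalois (F m) (Ω m)) (x : ∀ m, Ω m) (hx : IsIntegral UF (u.pO x)) :
    ∃ O : Finset UO, (∀ y, y ∈ O ↔ ∃ g : PG F Ω, u.act g (u.pO x) = y) ∧
      (minpoly UF (u.pO x)).map (algebraMap UF UO) = ∏ o ∈ O, (X - C o) ∧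
      (minpoly UF (u.pO x)).natDegree = O.card ∧
      ∀ᶠ m in (UU : Filter ℕ), (minpoly (F m) (x m)).natDegree = O.card := by
  classical
  obtain ⟨O, hO, hp⟩ := orb u.act.range (u.fixed hG) (u.pO x) hx
  have hO' : ∀ y, y ∈ O ↔ ∃ g : PG F Ω, u.act g (u.pO x) = y := by
    intro y
    rw [hO]
    constructor
    · rintro ⟨_, ⟨g, rfl⟩, h⟩
      exact ⟨g, h⟩
    · rintro ⟨g, h⟩
      exact ⟨_, ⟨g, rfl⟩, h⟩
  refine ⟨O, hO', hp, orb_natDegree hp, ?_⟩
  have h1 : ∀ o : O, ∃ g : PG F Ω, u.act g (u.pO x) = o.1 := fun o => (hO' o.1).1 o.2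
  choose g hg using h1
  have hinj : ∀ᶠ m in (UU : Filter ℕ), Function.Injective fun o : O => g o m (x m) := by
    have h2 : ∀ o o' : O, ∀ᶠ m in (UU : Filter ℕ), o ≠ o' → g o m (x m) ≠ g o' m (x m) := by
      intro o o'
      by_cases hoo : o = o'
      · exact Eventually.of_forall fun m h => absurd hoo h
      · have h3 : u.pO (fun m => g o m (x m)) ≠ u.pO (fun m => g o' m (x m)) := by
          rw [← u.act_apply, ← u.act_apply, hg, hg]
          exact fun h => hoo (Subtype.ext h)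
        rw [Ne, u.eqO, ← Ultrafilter.eventually_not] at h3
        filter_upwards [h3] with m hm _
        exact hm
    have h4 : ∀ᶠ m in (UU : Filter ℕ), ∀ o o' : O, o ≠ o' → g o m (x m) ≠ g o' m (x m) := by
      rw [Filter.eventually_all]
      intro o
      rw [Filter.eventually_all]
      exact h2 o
    filter_upwards [h4] with m hm o o' h
    by_contra hc
    exact hm o o' hc h
  have hsurj : ∀ᶠ m in (UU : Filter ℕ), ∀ h : Ω m ≃ₐ[F m] Ω m, ∃ o : O, h (x m) = g o m (x m) := by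
    refine transfer (X := fun m => Ω m ≃ₐ[F m] Ω m) (P := fun m h => ∃ o : O, h (x m) = g o m (x m)) fun h => ?_
    have h5 : u.act h (u.pO x) ∈ O := (hO' _).2 ⟨h, rfl⟩
    obtain ⟨o, ho⟩ : ∃ o : O, (o : UO) = u.act h (u.pO x) := ⟨⟨_, h5⟩, rfl⟩
    have h6 : u.act h (u.pO x) = u.act (g o) (u.pO x) := ho.symm.trans (hg o).symm
    rw [u.act_apply, u.act_apply, u.eqO] at h6
    filter_upwards [h6] with m hm
    exact ⟨_, hm⟩
  filter_upwards [hinj, hsurj] with m h7 h8
  haveI := hG m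
  obtain ⟨Om, hOm, hpm⟩ := orb (⊤ : Subgroup (Ω m ≃ₐ[F m] Ω m)) (fun y hy =>
    (InfiniteGalois.mem_range_algebraMap_iff_fixed y).2 fun f => hy f (Subgroup.mem_top f)) (x m)
    (Algebra.IsIntegral.isIntegral _)
  rw [orb_natDegree hpm]
  have h9 : Om = Finset.univ.image (fun o : O => g o m (x m)) := by
    ext y
    rw [hOm, Finset.mem_image]
    constructor
    · rintro ⟨h, _, rfl⟩
      obtain ⟨o, ho⟩ := h8 h
      exact ⟨o, Finset.mem_univ _, ho.symm⟩
    · rintro ⟨o, _, rfl⟩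
      exact ⟨g o m, Subgroup.mem_top _, rfl⟩
  rw [h9, Finset.card_image_of_injective _ h7, Finset.card_univ, Fintype.card_coe]

/-- the algebraic elements of the ultraproduct -/
abbrev AA (UF UO : Type) [Field UF] [Field UO] [Algebra UF UO] : IntermediateField UF UO := algebraicClosure UF UO

theorem UP.galA (u : UP F Ω UF UO) (hG : ∀ m, IsGalois (F m) (Ω m)) : IsGalois UF (AA UF UO) :=
  isGalois_of_fixed (AA UF UO) (fun x hx => mem_algebraicClosure_iff'.1 hx) (fun x hx => mem_algebraicClosure_iff'.2 hx)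
    u.act.range (u.fixed hG)

theorem UP.maxP (u : UP F Ω UF UO) {p : ℕ} (hp : p.Prime) (hM : ∀ m, MaxP p (F m) (Ω m)) : MaxP p UF (AA UF UO) := by
  refine ⟨u.galA fun m => (hM m).gal, ?_, ?_⟩
  · intro x
    obtain ⟨y, hy⟩ := u.surjO (x : UO)
    have hx : IsIntegral UF (x : UO) := mem_algebraicClosure_iff'.1 x.2
    rw [← hy] at hx
    obtain ⟨O, _, _, h1, h2⟩ := u.orbit (fun m => (hM m).gal) y hx
    obtain ⟨m, hm⟩ := h2.exists
    obtain ⟨k, hk⟩ := (hM m).deg (y m)
    refine ⟨k, ?_⟩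
    rw [IntermediateField.minpoly_eq, ← hy, h1, ← hm, hk]
  · intro x
    obtain ⟨y, hy⟩ := u.surjO (x : UO)
    have h1 : ∀ m, ∃ z : Ω m, z ^ p = y m := fun m => (hM m).root (y m)
    choose z hz using h1
    have h2 : u.pO z ^ p = x := by
      rw [← map_pow, ← hy, u.eqO]
      exact Eventually.of_forall hz
    have hx : IsIntegral UF (x : UO) := mem_algebraicClosure_iff'.1 x.2
    have h3 : IsIntegral UF (u.pO z) := by
      refine IsIntegral.of_pow hp.pos ?_
      rw [h2]
      exact hx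
    exact ⟨⟨u.pO z, mem_algebraicClosure_iff'.2 h3⟩, Subtype.ext h2⟩

/-- the map from sequences of automorphisms to the Galois group of the algebraic part -/
def UP.r [Normal UF (AA UF UO)] : PG F Ω →* (AA UF UO ≃ₐ[UF] AA UF UO) :=
  (AlgEquiv.restrictNormalHom (AA UF UO)).comp u.act

theorem UP.r_apply [Normal UF (AA UF UO)] (g : PG F Ω) (x : AA UF UO) : ((u.r g x : AA UF UO) : UO) = u.act g (x : UO) :=
  AlgEquiv.restrictNormal_commutes (u.act g) (AA UF UO) x

theorem UP.approx (hG : ∀ m, IsGalois (F m) (Ω m)) [IsGalois UF (AA UF UO)] (E : IntermediateField UF (AA UF UO))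
    [FiniteDimensional UF E] (γ : AA UF UO ≃ₐ[UF] AA UF UO) : ∃ g : PG F Ω, ∀ x ∈ E, u.r g x = γ x := by
  obtain ⟨θ, hθ⟩ := exists_gen E
  have hint : IsIntegral UF (θ : UO) := mem_algebraicClosure_iff'.1 θ.2
  obtain ⟨y, hy⟩ := u.surjO (θ : UO)
  rw [← hy] at hint
  obtain ⟨O, hO, hp, _, _⟩ := u.orbit hG y hint
  have h1 : aeval ((γ θ : AA UF UO) : UO) (minpoly UF (u.pO y)) = 0 := by
    rw [hy, ← IntermediateField.minpoly_eq]
    have h2 : aeval (γ θ) (minpoly UF θ) = 0 := by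
      have := minpoly.aeval UF θ
      rw [← AlgEquiv.coe_toAlgHom, Polynomial.aeval_algHom_apply, this, map_zero]
    have h3 := congrArg (AA UF UO).val h2
    rw [← Polynomial.aeval_algHom_apply, map_zero] at h3
    exact h3
  obtain ⟨g, hg⟩ := (hO _).1 (orb_root hp _ h1)
  refine ⟨g, fun x hx => ?_⟩
  rw [hθ] at hx
  refine agree (u.r g : AA UF UO →ₐ[UF] AA UF UO) (γ : AA UF UO →ₐ[UF] AA UF UO) θ ?_ x hx
  apply Subtype.ext
  change ((u.r g θ : AA UF UO) : UO) = _
  rw [u.r_apply, ← hy, hg]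
  rfl

end

end

end Pool.Agent.H403.W
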