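import Pool.Agent.H403.W.W5

/-! # Uniform bounds by compactness (helper403) -/

set_option linter.all false

namespace Pool.Agent.H403.W
open Polynomial IntermediateField Filter

noncomputable section

theorem integral_of_orb {F Ω : Type} [Field F] [Field Ω] [Algebra F Ω] (H : Subgroup (Ω ≃ₐ[F] Ω))
    (hH : ∀ x : Ω, (∀ g ∈ H, g x = x) → ∃ y : F, algebraMap F Ω y = x) (x : Ω)
    (hfin : {y | ∃ g ∈ H, g x = y}.Finite) : IsIntegral F x := by
  classical
  set O : Finset Ω := hfin.toFinset with hO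
  have hmem : ∀ y, y ∈ O ↔ ∃ g ∈ H, g x = y := fun y => by rw [hO, Set.Finite.mem_toFinset]; rfl
  set P : Polynomial Ω := ∏ o ∈ O, (X - C o) with hP
  have hPm : P.Monic := monic_prod_of_monic _ _ fun o _ => monic_X_sub_C o
  have hfix : ∀ g ∈ H, P.map (g : Ω ≃ₐ[F] Ω).toAlgHom.toRingHom = P := by
    intro g hg
    rw [hP, Polynomial.map_prod]
    refine Finset.prod_bij' (fun o _ => g o) (fun o _ => g⁻¹ o) ?_ ?_ ?_ ?_ ?_
    · intro o ho
      obtain ⟨k, hk, rfl⟩ := (hmem o).1 ho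
      exact (hmem _).2 ⟨g * k, H.mul_mem hg hk, rfl⟩
    · intro o ho
      obtain ⟨k, hk, rfl⟩ := (hmem o).1 ho
      exact (hmem _).2 ⟨g⁻¹ * k, H.mul_mem (H.inv_mem hg) hk, rfl⟩
    · intro o _
      change (g⁻¹ * g) o = o
      rw [inv_mul_cancel]; rfl
    · intro o _
      change (g * g⁻¹) o = o
      rw [mul_inv_cancel]; rfl
    · intro o _
      rw [Polynomial.map_sub, Polynomial.map_X, Polynomial.map_C]
      rfl
  have hcoef : ∀ i, ∃ y : F, algebraMap F Ω y = P.coeff i := by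
    intro i
    refine hH _ fun g hg => ?_
    conv_rhs => rw [← hfix g hg]
    rw [Polynomial.coeff_map]
    rfl
  obtain ⟨Q, hQ, hQm⟩ : ∃ Q : Polynomial F, Q.map (algebraMap F Ω) = P ∧ Q.Monic := by
    have : P ∈ Polynomial.lifts (algebraMap F Ω) := by
      rw [Polynomial.lifts_iff_coeff_lifts]
      intro i
      obtain ⟨y, hy⟩ := hcoef i
      exact ⟨y, hy⟩
    obtain ⟨Q, hQ, _, hQm⟩ := Polynomial.lifts_and_degree_eq_and_monic this hPm
    exact ⟨Q, hQ, hQm⟩
  have hxO : x ∈ O := (hmem x).2 ⟨1, H.one_mem, rfl⟩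
  refine ⟨Q, hQm, ?_⟩
  have : eval₂ (algebraMap F Ω) x Q = eval x (Q.map (algebraMap F Ω)) := by rw [eval_map]
  rw [this, hQ, hP, Polynomial.eval_prod]
  exact Finset.prod_eq_zero hxO (by simp)

theorem exists_pt {F Ω : Type} [Field F] [Field Ω] [Algebra F Ω] [IsGalois F Ω] {H : Type} [Group H]
    (ρ : (Ω ≃ₐ[F] Ω) →* H) (hρ : Cont1 ρ) : ∃ x : Ω, ∀ g g', g x = g' x ↔ ρ g = ρ g' := by
  obtain ⟨E, hE, hρE⟩ := hρ
  have hle : E.fixingSubgroup ≤ ρ.ker := by
    intro g hg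
    rw [MonoidHom.mem_ker, ← map_one ρ]
    refine hρE g 1 fun x hx => ?_
    exact (IntermediateField.mem_fixingSubgroup_iff _ _).1 hg x hx
  have hopen : IsOpen (ρ.ker : Set (Ω ≃ₐ[F] Ω)) := Subgroup.isOpen_mono hle (IntermediateField.fixingSubgroup_isOpen E)
  have hclosed : IsClosed (ρ.ker : Set (Ω ≃ₐ[F] Ω)) := Subgroup.isClosed_of_isOpen _ hopen
  let N : ClosedSubgroup (Ω ≃ₐ[F] Ω) := ⟨ρ.ker, hclosed⟩
  have h1 : (IntermediateField.fixedField N.1).fixingSubgroup = ρ.ker := InfiniteGalois.fixingSubgroup_fixedField N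
  have h2 : FiniteDimensional F (IntermediateField.fixedField N.1) := by
    rw [← InfiniteGalois.isOpen_iff_finite, h1]
    exact hopen
  obtain ⟨x, hx⟩ := exists_gen (IntermediateField.fixedField N.1)
  refine ⟨x, fun g g' => ?_⟩
  constructor
  · intro h
    have h3 : g'⁻¹ * g ∈ ρ.ker := by
      rw [← h1, IntermediateField.mem_fixingSubgroup_iff]
      intro y hy
      rw [hx] at hy
      refine agree ((g'⁻¹ * g : Ω ≃ₐ[F] Ω) : Ω →ₐ[F] Ω) (AlgHom.id F Ω) x ?_ y hy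
      change g'⁻¹ (g x) = x
      rw [h]
      change (g'⁻¹ * g') x = x
      rw [inv_mul_cancel]
      rfl
    rw [MonoidHom.mem_ker, map_mul, map_inv, inv_mul_eq_one] at h3
    exact h3.symm
  · intro h
    have h3 : g'⁻¹ * g ∈ ρ.ker := by
      rw [MonoidHom.mem_ker, map_mul, map_inv, inv_mul_eq_one]
      exact h.symm
    rw [← h1, IntermediateField.mem_fixingSubgroup_iff] at h3
    have h4 := h3 x (by rw [hx]; exact mem_adjoin_simple_self F x)
    have h5 : g' (g'⁻¹ (g x)) = g' x := congrArg g' h4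
    rw [← h5]
    change g x = (g' * g'⁻¹) (g x)
    rw [mul_inv_cancel]
    rfl

theorem exists_ulim {H : Type} [Finite H] (f : ℕ → H) : ∃ h, ∀ᶠ m in (UU : Filter ℕ), f m = h := by
  by_contra hc
  push Not at hc
  have h1 : ∀ h, ∀ᶠ m in (UU : Filter ℕ), f m ≠ h := by
    intro h
    exact Ultrafilter.eventually_not.2 (by simpa using hc h)
  rw [← Filter.eventually_all] at h1
  obtain ⟨m, hm⟩ := h1.exists
  exact hm (f m) rfl

section
variable {F Ω : ℕ → Type} [∀ m, Field (F m)] [∀ m, Field (Ω m)] [∀ m, Algebra (F m) (Ω m)]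
    {UF UO : Type} [Field UF] [Field UO] [Algebra UF UO] (u : UP F Ω UF UO)

theorem UP.inj (x : ∀ m, Ω m) (O : Finset UO) (g : O → PG F Ω) (hg : ∀ o, u.act (g o) (u.pO x) = o) :
    ∀ᶠ m in (UU : Filter ℕ), Function.Injective fun o : O => g o m (x m) := by
  classical
  have h2 : ∀ o o' : O, ∀ᶠ m in (UU : Filter ℕ), o ≠ o' → g o m (x m) ≠ g o' m (x m) := by
    intro o o'
    by_cases hoo : o = o'
    · exact Eventually.of_forall fun m h => absurd hoo h
    · have h3 : u.pO (fun m => g o m (x m)) ≠ u.pO (fun m => g o' m (x m)) := by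
        rw [← u.act_apply, ← u.act_apply, hg, hg]
        exact fun h => hoo (Subtype.ext h)
      rw [Ne, u.eqO, ← Ultrafilter.eventually_not] at h3
      filter_upwards [h3] with m hm _
      exact hm
  have h4 : ∀ᶠ m in (UU : Filter ℕ), ∀ o o' : O, o ≠ o' → g o m (x m) ≠ g o' m (x m) := by
    rw [Filter.eventually_all]
    intro o
    rw [Filter.eventually_all]
    exact h2 o
  filter_upwards [h4] with m hm o o' h
  by_contra hc
  exact hm o o' hc h

/-- continuous functions on the Galois group of the algebraic part come from sequences of continuous functions -/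
theorem UP.lift1 (hG : ∀ m, IsGalois (F m) (Ω m)) [IsGalois UF (AA UF UO)] {X : Type}
    (f : (AA UF UO ≃ₐ[UF] AA UF UO) → X) (hf : Cont1 f) :
    ∃ fm : ∀ m, (Ω m ≃ₐ[F m] Ω m) → X, (∀ m, Cont1 (fm m)) ∧
      ∀ g : PG F Ω, ∀ᶠ m in (UU : Filter ℕ), fm m (g m) = f (u.r g) := by
  classical
  obtain ⟨E, hE, hfE⟩ := hf
  obtain ⟨θ, hθ⟩ := exists_gen E
  have hfθ : ∀ γ γ' : AA UF UO ≃ₐ[UF] AA UF UO, γ θ = γ' θ → f γ = f γ' := by
    intro γ γ' h
    refine hfE γ γ' fun x hx => ?_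
    rw [hθ] at hx
    exact agree (γ : AA UF UO →ₐ[UF] AA UF UO) (γ' : AA UF UO →ₐ[UF] AA UF UO) θ h x hx
  have hint : IsIntegral UF (θ : UO) := mem_algebraicClosure_iff'.1 θ.2
  obtain ⟨y, hy⟩ := u.surjO (θ : UO)
  rw [← hy] at hint
  obtain ⟨O, hO, hp, _, _⟩ := u.orbit hG y hint
  have h1 : ∀ o : O, ∃ g : PG F Ω, u.act g (u.pO y) = o.1 := fun o => (hO o.1).1 o.2
  choose g hg using h1
  have hinj := u.inj y O g hg
  let φ : ∀ m, Ω m → X := fun m z => if h : ∃ o : O, z = g o m (y m) then f (u.r (g h.choose)) else f 1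
  refine ⟨fun m γ => φ m (γ (y m)), ?_, ?_⟩
  · intro m
    haveI := hG m
    refine ⟨(F m)⟮y m⟯, IntermediateField.adjoin.finiteDimensional (Algebra.IsIntegral.isIntegral _), fun γ γ' h => ?_⟩
    change φ m (γ (y m)) = φ m (γ' (y m))
    rw [h _ (mem_adjoin_simple_self (F m) (y m))]
  · intro k
    obtain ⟨o, ho⟩ : ∃ o : O, (o : UO) = u.act k (u.pO y) := ⟨⟨_, (hO _).2 ⟨k, rfl⟩⟩, rfl⟩
    have h6 : u.act k (u.pO y) = u.act (g o) (u.pO y) := ho.symm.trans (hg o).symm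
    have h7 : f (u.r (g o)) = f (u.r k) := by
      refine hfθ _ _ (Subtype.ext ?_)
      rw [u.r_apply, u.r_apply, ← hy, h6]
    rw [u.act_apply, u.act_apply, u.eqO] at h6
    filter_upwards [h6, hinj] with m hm hinjm
    change φ m (k m (y m)) = _
    have hex : ∃ o : O, k m (y m) = g o m (y m) := ⟨o, hm⟩
    have hch : hex.choose = o := by
      apply hinjm
      exact hex.choose_spec.symm.trans hm
    change (if h : ∃ o : O, k m (y m) = g o m (y m) then f (u.r (g h.choose)) else f 1) = _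
    rw [dif_pos hex, hch, h7]

/-- homomorphisms to a finite group pass to the algebraic part of the ultraproduct -/
theorem UP.ulim_hom (hG : ∀ m, IsGalois (F m) (Ω m)) [IsGalois UF (AA UF UO)] {H : Type} [Group H] [Finite H]
    (ρm : ∀ m, (Ω m ≃ₐ[F m] Ω m) →* H) (hc : ∀ m, Cont1 (ρm m)) :
    ∃ ρ : (AA UF UO ≃ₐ[UF] AA UF UO) →* H, Cont1 ρ ∧ ∀ g : PG F Ω, ∀ᶠ m in (UU : Filter ℕ), ρm m (g m) = ρ (u.r g) := by
  classical
  have h1 : ∀ m, ∃ x : Ω m, ∀ g g', g x = g' x ↔ ρm m g = ρm m g' := fun m => by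
    haveI := hG m
    exact exists_pt (ρm m) (hc m)
  choose x hx using h1
  have h2 : ∀ g : PG F Ω, ∃ h, ∀ᶠ m in (UU : Filter ℕ), ρm m (g m) = h := fun g => exists_ulim fun m => ρm m (g m)
  choose ρt hρt using h2
  have huniq : ∀ (g : PG F Ω) (h : H), (∀ᶠ m in (UU : Filter ℕ), ρm m (g m) = h) → ρt g = h := by
    intro g h hh
    obtain ⟨m, h3, h4⟩ := ((hρt g).and hh).exists
    exact h3.symm.trans h4
  have hmul : ∀ g g', ρt (g * g') = ρt g * ρt g' := by
    intro g g'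
    apply huniq
    filter_upwards [hρt g, hρt g'] with m h3 h4
    rw [Pi.mul_apply, map_mul, h3, h4]
  have hact : ∀ g g' : PG F Ω, u.act g (u.pO x) = u.act g' (u.pO x) ↔ ρt g = ρt g' := by
    intro g g'
    rw [u.act_apply, u.act_apply, u.eqO]
    constructor
    · intro h
      apply huniq
      filter_upwards [h, hρt g'] with m h3 h4
      rw [← h4]
      exact (hx m _ _).1 h3
    · intro h
      filter_upwards [hρt g, hρt g'] with m h3 h4
      exact (hx m _ _).2 (by rw [h3, h4, h])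
  have hfin : {y | ∃ g ∈ u.act.range, g (u.pO x) = y}.Finite := by
    let s : H → UO := fun h => if hh : ∃ g, ρt g = h then u.act hh.choose (u.pO x) else 0
    refine Set.Finite.subset (Set.finite_range s) ?_
    rintro y ⟨_, ⟨g, rfl⟩, rfl⟩
    refine ⟨ρt g, ?_⟩
    have hh : ∃ g', ρt g' = ρt g := ⟨g, rfl⟩
    change (if hh : ∃ g', ρt g' = ρt g then u.act hh.choose (u.pO x) else 0) = _
    rw [dif_pos hh, hact]
    exact hh.choose_spec
  have hint : IsIntegral UF (u.pO x) := integral_of_orb u.act.range (u.fixed hG) _ hfin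
  let θ : AA UF UO := ⟨u.pO x, mem_algebraicClosure_iff'.2 hint⟩
  have hr : ∀ g g' : PG F Ω, u.r g θ = u.r g' θ ↔ ρt g = ρt g' := by
    intro g g'
    rw [← hact]
    constructor
    · intro h
      have := congrArg (Subtype.val) h
      rwa [u.r_apply, u.r_apply] at this
    · intro h
      apply Subtype.ext
      rw [u.r_apply, u.r_apply]
      exact h
  have hfd : ∀ z : AA UF UO, FiniteDimensional UF UF⟮z⟯ := fun z =>
    IntermediateField.adjoin.finiteDimensional (Algebra.IsIntegral.isIntegral _)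
  have h5 : ∀ γ : AA UF UO ≃ₐ[UF] AA UF UO, ∃ g : PG F Ω, u.r g θ = γ θ := by
    intro γ
    haveI := hfd θ
    obtain ⟨g, hg⟩ := u.approx hG UF⟮θ⟯ γ
    exact ⟨g, hg θ (mem_adjoin_simple_self UF θ)⟩
  choose s hs using h5
  have hkey : ∀ (γ : AA UF UO ≃ₐ[UF] AA UF UO) (g : PG F Ω), u.r g θ = γ θ → ρt (s γ) = ρt g := by
    intro γ g h
    rw [← hr, hs, h]
  refine ⟨{ toFun := fun γ => ρt (s γ), map_one' := ?_, map_mul' := ?_ }, ?_, ?_⟩
  · rw [hkey 1 1 (by rw [map_one])]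
    apply huniq
    exact Eventually.of_forall fun m => map_one _
  · intro γ γ'
    haveI := hfd θ
    haveI := hfd (γ' θ)
    obtain ⟨g, hg⟩ := u.approx hG (UF⟮θ⟯ ⊔ UF⟮γ' θ⟯) γ
    have h6 : u.r g θ = γ θ := hg θ ((le_sup_left : UF⟮θ⟯ ≤ UF⟮θ⟯ ⊔ UF⟮γ' θ⟯) (mem_adjoin_simple_self UF θ))
    have h7 : u.r g (γ' θ) = γ (γ' θ) := hg _ ((le_sup_right : UF⟮γ' θ⟯ ≤ UF⟮θ⟯ ⊔ UF⟮γ' θ⟯) (mem_adjoin_simple_self UF _))
    have h8 : u.r (g * s γ') θ = (γ * γ') θ := by
      rw [map_mul]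
      change u.r g (u.r (s γ') θ) = γ (γ' θ)
      rw [hs, h7]
    rw [hkey _ _ h8, hmul, hkey γ g h6]
  · haveI := hfd θ
    refine ⟨UF⟮θ⟯, hfd θ, fun γ γ' h => ?_⟩
    change ρt (s γ) = ρt (s γ')
    apply hkey
    rw [hs, h θ (mem_adjoin_simple_self UF θ)]
  · intro g
    change ∀ᶠ m in (UU : Filter ℕ), ρm m (g m) = ρt (s (u.r g))
    rw [hkey (u.r g) g rfl]
    exact hρt g

end

end

end Pool.Agent.H403.W
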