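import Pool.Agent.H403.W.W6

/-! # A uniform bound for classes inflated from a fixed finite group (helper403) -/

set_option linter.all false

namespace Pool.Agent.H403.W
open Polynomial IntermediateField Filter

noncomputable section

/-- the Merkurjev-Suslin statement for maximal `p`-extensions -/
def MSx (p : ℕ) : Prop := ∀ (F Ω : Type) [Field F] [Field Ω] [Algebra F Ω], MaxP p F Ω → (∃ ζ : F, IsPrimitiveRoot ζ p) →
  ∀ c : (Ω ≃ₐ[F] Ω) → (Ω ≃ₐ[F] Ω) → ZMod p, IsZ2 c → ∃ m, SymbolLengthLE c m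

section
variable {p : ℕ} {F Ω : Type} [Field F] [Field Ω] [Algebra F Ω]

theorem cont1_const {X : Type} (x : X) : Cont1 (fun _ : (Ω ≃ₐ[F] Ω) => x) :=
  ⟨⊥, inferInstance, fun _ _ _ => rfl⟩

theorem isH1_zero : IsH1 (fun _ : (Ω ≃ₐ[F] Ω) => (0 : ZMod p)) :=
  ⟨cont1_const 0, fun _ _ => (add_zero _).symm⟩

theorem SymbolLengthLE.succ {c : (Ω ≃ₐ[F] Ω) → (Ω ≃ₐ[F] Ω) → ZMod p} {m : ℕ} (h : SymbolLengthLE c m) :
    SymbolLengthLE c (m + 1) := by
  obtain ⟨ψ, ψ', h1, h2, b, hb, h3⟩ := h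
  refine ⟨Fin.snoc (α := fun _ => (Ω ≃ₐ[F] Ω) → ZMod p) ψ (fun _ => 0),
    Fin.snoc (α := fun _ => (Ω ≃ₐ[F] Ω) → ZMod p) ψ' (fun _ => 0), ?_, ?_, b, hb, ?_⟩
  · intro i
    refine Fin.lastCases ?_ (fun j => ?_) i
    · rw [Fin.snoc_last]
      exact isH1_zero
    · rw [Fin.snoc_castSucc]
      exact h1 j
  · intro i
    refine Fin.lastCases ?_ (fun j => ?_) i
    · rw [Fin.snoc_last]
      exact isH1_zero
    · rw [Fin.snoc_castSucc]
      exact h2 j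
  · intro g h
    rw [h3, Fin.sum_univ_castSucc]
    simp only [Fin.snoc_castSucc, Fin.snoc_last, mul_zero, add_zero]

theorem SymbolLengthLE.mono {c : (Ω ≃ₐ[F] Ω) → (Ω ≃ₐ[F] Ω) → ZMod p} {m m' : ℕ} (h : SymbolLengthLE c m)
    (hm : m ≤ m') : SymbolLengthLE c m' := by
  induction m', hm using Nat.le_induction with
  | base => exact h
  | succ n _ ih => exact ih.succ

end

theorem thmC {p : ℕ} (hp : p.Prime) (hMS : MSx p) (H : Type) [Group H] [Finite H] (c : H → H → ZMod p) :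
    ∃ M : ℕ, ∀ (F Ω : Type) [Field F] [Field Ω] [Algebra F Ω], MaxP p F Ω → (∃ ζ : F, IsPrimitiveRoot ζ p) →
      ∀ ρ : (Ω ≃ₐ[F] Ω) →* H, Cont1 ρ →
        (∀ g h k, c (ρ h) (ρ k) - c (ρ (g * h)) (ρ k) + c (ρ g) (ρ (h * k)) - c (ρ g) (ρ h) = 0) →
        SymbolLengthLE (fun g h => c (ρ g) (ρ h)) M := by
  by_contra hcon
  push Not at hcon
  choose F Ω i1 i2 i3 hM hζ ρ hρ hcoc hneg using hcon
  obtain ⟨UF, UO, j1, j2, j3, ⟨u⟩⟩ := exists_UP F Ω
  have hG : ∀ m, IsGalois (F m) (Ω m) := fun m => (hM m).gal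
  haveI hGA := u.galA hG
  have hMA := u.maxP hp hM
  obtain ⟨ρA, hρA, hlim⟩ := u.ulim_hom hG ρ hρ
  have hsurj : ∀ γ, ∃ g, ρA (u.r g) = ρA γ := by
    intro γ
    obtain ⟨E, hE, hρE⟩ := hρA
    obtain ⟨g, hg⟩ := u.approx hG E γ
    exact ⟨g, hρE _ _ hg⟩
  have hZ : IsZ2 (fun g h => c (ρA g) (ρA h)) := by
    refine ⟨?_, ?_⟩
    · obtain ⟨E, hE, hρE⟩ := hρA
      refine ⟨E, hE, fun g g' h h' h1 h2 => ?_⟩
      change c (ρA g) (ρA h) = c (ρA g') (ρA h')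
      rw [hρE g g' h1, hρE h h' h2]
    · intro g h k
      change c (ρA h) (ρA k) - c (ρA (g * h)) (ρA k) + c (ρA g) (ρA (h * k)) - c (ρA g) (ρA h) = 0
      obtain ⟨g', hg'⟩ := hsurj g
      obtain ⟨h', hh'⟩ := hsurj h
      obtain ⟨k', hk'⟩ := hsurj k
      rw [map_mul, map_mul, ← hg', ← hh', ← hk']
      obtain ⟨m, m1, m2, m3⟩ := ((hlim g').and ((hlim h').and (hlim k'))).exists
      rw [← m1, ← m2, ← m3, ← map_mul, ← map_mul]
      exact hcoc m _ _ _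
  obtain ⟨M, ψ, ψ', hψ, hψ', b, hb, hid⟩ := hMS UF (AA UF UO) hMA (u.prim hp hζ) _ hZ
  have e1 := fun i => u.lift1 hG (ψ i) (hψ i).1
  have e2 := fun i => u.lift1 hG (ψ' i) (hψ' i).1
  obtain ⟨bm, hbm, hbl⟩ := u.lift1 hG b hb
  choose ψm hψm hψl using e1
  choose ψm' hψm' hψl' using e2
  have t1 : ∀ᶠ m in (UU : Filter ℕ), ∀ i, ∀ g h, ψm i m (g * h) = ψm i m g + ψm i m h := by
    rw [Filter.eventually_all]
    intro i
    refine transfer2 (X := fun m => Ω m ≃ₐ[F m] Ω m) (P := fun m g h => ψm i m (g * h) = ψm i m g + ψm i m h) fun g h => ?_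
    filter_upwards [hψl i g, hψl i h, hψl i (g * h)] with m a1 a2 a3
    rw [a1, a2, ← (hψ i).2, ← map_mul, ← a3]
    rfl
  have t2 : ∀ᶠ m in (UU : Filter ℕ), ∀ i, ∀ g h, ψm' i m (g * h) = ψm' i m g + ψm' i m h := by
    rw [Filter.eventually_all]
    intro i
    refine transfer2 (X := fun m => Ω m ≃ₐ[F m] Ω m) (P := fun m g h => ψm' i m (g * h) = ψm' i m g + ψm' i m h) fun g h => ?_
    filter_upwards [hψl' i g, hψl' i h, hψl' i (g * h)] with m a1 a2 a3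
    rw [a1, a2, ← (hψ' i).2, ← map_mul, ← a3]
    rfl
  have t3 : ∀ᶠ m in (UU : Filter ℕ), ∀ g h, c (ρ m g) (ρ m h) = ∑ i, ψm i m g * ψm' i m h + (bm m g + bm m h - bm m (g * h)) := by
    refine transfer2 (X := fun m => Ω m ≃ₐ[F m] Ω m) (P := fun m g h => c (ρ m g) (ρ m h) =
      ∑ i, ψm i m g * ψm' i m h + (bm m g + bm m h - bm m (g * h))) fun g h => ?_
    have a1 : ∀ᶠ m in (UU : Filter ℕ), ∀ i, ψm i m (g m) = ψ i (u.r g) := by
      rw [Filter.eventually_all]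
      exact fun i => hψl i g
    have a2 : ∀ᶠ m in (UU : Filter ℕ), ∀ i, ψm' i m (h m) = ψ' i (u.r h) := by
      rw [Filter.eventually_all]
      exact fun i => hψl' i h
    filter_upwards [a1, a2, hbl g, hbl h, hbl (g * h), hlim g, hlim h] with m b1 b2 b3 b4 b5 b6 b7
    have b5' : bm m (g m * h m) = b (u.r g * u.r h) := by
      rw [← map_mul]
      exact b5
    rw [b3, b4, b5', b6, b7]
    simp only [b1, b2]
    exact hid _ _
  have t4 : ∀ᶠ m in (UU : Filter ℕ), M ≤ m := (eventually_ge_atTop M).filter_mono Nat.hyperfilter_le_atTop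
  obtain ⟨m, m1, m2, m3, m4⟩ := (t1.and (t2.and (t3.and t4))).exists
  apply hneg m
  refine SymbolLengthLE.mono ?_ m4
  exact ⟨fun i => ψm i m, fun i => ψm' i m, fun i => ⟨hψm i m, m1 i⟩, fun i => ⟨hψm' i m, m2 i⟩, bm m, hbm m, m3⟩

end

end Pool.Agent.H403.W
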