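import Pool.Agent.H403.W.W7

/-! # Massey products and unipotent representations (helper403) -/

set_option linter.all false

namespace Pool.Agent.H403.W
open Polynomial IntermediateField Filter

noncomputable section

section
variable {p : ℕ} {F Ω : Type} [Field F] [Field Ω] [Algebra F Ω]

theorem Cont1.of_imp {X Y : Type} {f : (Ω ≃ₐ[F] Ω) → X} {f' : (Ω ≃ₐ[F] Ω) → Y} (h : Cont1 f)
    (himp : ∀ g g', f g = f g' → f' g = f' g') : Cont1 f' := by
  obtain ⟨E, hE, hf⟩ := h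
  exact ⟨E, hE, fun g g' hg => himp _ _ (hf g g' hg)⟩

theorem Cont1.pi {ι X : Type} [Finite ι] {f : ι → (Ω ≃ₐ[F] Ω) → X} (h : ∀ i, Cont1 (f i)) :
    Cont1 (fun g => fun i => f i g) := by
  choose E hE hf using h
  haveI := hE
  refine ⟨⨆ i, E i, inferInstance, fun g g' hg => ?_⟩
  funext i
  exact hf i g g' fun x hx => hg x ((le_iSup E i) hx)

variable {n : ℕ}

/-- the unipotent matrix of (part of) a defining system -/
def mS (S : Fin (n + 1) → Fin (n + 1) → Prop) (a : Fin (n + 1) → Fin (n + 1) → (Ω ≃ₐ[F] Ω) → ZMod p)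
    (g : Ω ≃ₐ[F] Ω) : Matrix (Fin (n + 1)) (Fin (n + 1)) (ZMod p) :=
  open Classical in Matrix.of fun i j => if i = j then 1 else if i < j ∧ S i j then - a i j g else 0

variable {S : Fin (n + 1) → Fin (n + 1) → Prop} {a : Fin (n + 1) → Fin (n + 1) → (Ω ≃ₐ[F] Ω) → ZMod p}

theorem mS_diag (g : Ω ≃ₐ[F] Ω) (i : Fin (n + 1)) : mS S a g i i = 1 := if_pos rfl

theorem mS_lt (g : Ω ≃ₐ[F] Ω) {i j : Fin (n + 1)} (h : j < i) : mS S a g i j = 0 := by
  unfold mS
  rw [Matrix.of_apply, if_neg h.ne', if_neg]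
  rintro ⟨h1, _⟩
  exact absurd h (not_lt.2 h1.le)

theorem mS_S (g : Ω ≃ₐ[F] Ω) {i j : Fin (n + 1)} (h : i < j) (hS : S i j) : mS S a g i j = - a i j g := by
  unfold mS
  rw [Matrix.of_apply, if_neg h.ne, if_pos ⟨h, hS⟩]

theorem mS_nS (g : Ω ≃ₐ[F] Ω) {i j : Fin (n + 1)} (h : i < j) (hS : ¬ S i j) : mS S a g i j = 0 := by
  unfold mS
  rw [Matrix.of_apply, if_neg h.ne, if_neg (fun h1 => hS h1.2)]

theorem mS_mul (hS1 : ∀ i j k, i < k → k < j → S i j → S i k ∧ S k j)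
    (hS2 : ∀ i j k, i < k → k < j → S i k → S k j → S i j)
    (ha : ∀ i j, i < j → S i j → ∀ g h, a i j g + a i j h - a i j (g * h) = ∑ k ∈ Finset.Ioo i j, a i k g * a k j h)
    (g h : Ω ≃ₐ[F] Ω) : mS S a (g * h) = mS S a g * mS S a h := by
  classical
  ext i j
  rw [Matrix.mul_apply]
  rcases lt_trichotomy i j with hij | rfl | hij
  · have hsub : ∑ k, mS S a g i k * mS S a h k j =
        ∑ k ∈ insert i (insert j (Finset.Ioo i j)), mS S a g i k * mS S a h k j := by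
      symm
      refine Finset.sum_subset (Finset.subset_univ _) fun k _ hk => ?_
      rw [Finset.mem_insert, Finset.mem_insert, Finset.mem_Ioo] at hk
      push Not at hk
      rcases lt_or_ge k i with h1 | h1
      · rw [mS_lt g h1, zero_mul]
      · have h2 : i < k := lt_of_le_of_ne h1 (Ne.symm hk.1)
        have h3 : j < k := lt_of_le_of_ne (hk.2.2 h2) (Ne.symm hk.2.1)
        rw [mS_lt h h3, mul_zero]
    rw [hsub, Finset.sum_insert (by simp [hij.ne]), Finset.sum_insert (by simp), mS_diag, mS_diag, one_mul, mul_one]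
    by_cases hS : S i j
    · rw [mS_S _ hij hS, mS_S _ hij hS, mS_S _ hij hS]
      have h4 : ∑ k ∈ Finset.Ioo i j, mS S a g i k * mS S a h k j = ∑ k ∈ Finset.Ioo i j, a i k g * a k j h := by
        refine Finset.sum_congr rfl fun k hk => ?_
        rw [Finset.mem_Ioo] at hk
        obtain ⟨h5, h6⟩ := hS1 i j k hk.1 hk.2 hS
        rw [mS_S _ hk.1 h5, mS_S _ hk.2 h6, neg_mul_neg]
      rw [h4, ← ha i j hij hS]
      ring
    · rw [mS_nS _ hij hS, mS_nS _ hij hS, mS_nS _ hij hS]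
      symm
      rw [zero_add, zero_add]
      refine Finset.sum_eq_zero fun k hk => ?_
      rw [Finset.mem_Ioo] at hk
      by_cases h5 : S i k
      · have h6 : ¬ S k j := fun h6 => hS (hS2 i j k hk.1 hk.2 h5 h6)
        rw [mS_nS _ hk.2 h6, mul_zero]
      · rw [mS_nS _ hk.1 h5, zero_mul]
  · rw [mS_diag, Finset.sum_eq_single i, mS_diag, mS_diag, mul_one]
    · intro k _ hk
      rcases lt_or_gt_of_ne hk with h1 | h1
      · rw [mS_lt g h1, zero_mul]
      · rw [mS_lt h h1, mul_zero]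
    · intro h
      exact absurd (Finset.mem_univ _) h
  · rw [mS_lt _ hij]
    symm
    refine Finset.sum_eq_zero fun k _ => ?_
    rcases lt_or_ge k i with h1 | h1
    · rw [mS_lt g h1, zero_mul]
    · rw [mS_lt h (lt_of_lt_of_le hij h1), mul_zero]

theorem mS_one (hm : ∀ g h, mS S a (g * h) = mS S a g * mS S a h) : mS S a 1 = 1 := by
  have h1 : mS S a 1 * mS S a 1 = mS S a 1 := by rw [← hm, mul_one]
  have h2 : (mS S a 1).det = 1 := by
    rw [Matrix.det_of_upperTriangular]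
    · exact Finset.prod_eq_one fun i _ => mS_diag 1 i
    · intro i j hij
      exact mS_lt 1 hij
  have h3 : IsUnit (mS S a 1) := by
    rw [Matrix.isUnit_iff_isUnit_det, h2]
    exact isUnit_one
  exact h3.mul_left_cancel (h1.trans (mul_one _).symm)

/-- the unipotent representation -/
def rS (hm : ∀ g h, mS S a (g * h) = mS S a g * mS S a h) : (Ω ≃ₐ[F] Ω) →* Matrix (Fin (n + 1)) (Fin (n + 1)) (ZMod p) where
  toFun := mS S a
  map_one' := mS_one hm
  map_mul' := hm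

theorem massey_cocycle (hid : ∀ i j, i < j → ¬ (i = 0 ∧ j = Fin.last n) → ∀ g h : Ω ≃ₐ[F] Ω,
    a i j g + a i j h - a i j (g * h) = ∑ k ∈ Finset.Ioo i j, a i k g * a k j h) (g h k : Ω ≃ₐ[F] Ω) :
    masseyValue a h k - masseyValue a (g * h) k + masseyValue a g (h * k) - masseyValue a g h = 0 := by
  unfold masseyValue
  have h1 : ∑ i ∈ Finset.Ioo 0 (Fin.last n), a 0 i (g * h) * a i (Fin.last n) k =
      ∑ i ∈ Finset.Ioo 0 (Fin.last n), a 0 i g * a i (Fin.last n) k + ∑ i ∈ Finset.Ioo 0 (Fin.last n), a 0 i h * a i (Fin.last n) k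
       - ∑ i ∈ Finset.Ioo 0 (Fin.last n), ∑ l ∈ Finset.Ioo 0 i, a 0 l g * a l i h * a i (Fin.last n) k := by
    rw [← Finset.sum_add_distrib, ← Finset.sum_sub_distrib]
    refine Finset.sum_congr rfl fun i hi => ?_
    rw [Finset.mem_Ioo] at hi
    rw [← Finset.sum_mul, ← hid 0 i hi.1 (fun h => hi.2.ne h.2)]
    ring
  have h2 : ∑ i ∈ Finset.Ioo 0 (Fin.last n), a 0 i g * a i (Fin.last n) (h * k) =
      ∑ i ∈ Finset.Ioo 0 (Fin.last n), a 0 i g * a i (Fin.last n) h + ∑ i ∈ Finset.Ioo 0 (Fin.last n), a 0 i g * a i (Fin.last n) k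
       - ∑ i ∈ Finset.Ioo 0 (Fin.last n), ∑ l ∈ Finset.Ioo i (Fin.last n), a 0 i g * a i l h * a l (Fin.last n) k := by
    rw [← Finset.sum_add_distrib, ← Finset.sum_sub_distrib]
    refine Finset.sum_congr rfl fun i hi => ?_
    rw [Finset.mem_Ioo] at hi
    have h3 := hid i (Fin.last n) hi.2 (fun h => hi.1.ne' h.1) h k
    have h4 : ∑ l ∈ Finset.Ioo i (Fin.last n), a 0 i g * a i l h * a l (Fin.last n) k =
        a 0 i g * ∑ l ∈ Finset.Ioo i (Fin.last n), a i l h * a l (Fin.last n) k := by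
      rw [Finset.mul_sum]
      exact Finset.sum_congr rfl fun l _ => mul_assoc _ _ _
    rw [h4, ← h3]
    ring
  have h5 : ∑ i ∈ Finset.Ioo 0 (Fin.last n), ∑ l ∈ Finset.Ioo 0 i, a 0 l g * a l i h * a i (Fin.last n) k =
      ∑ i ∈ Finset.Ioo 0 (Fin.last n), ∑ l ∈ Finset.Ioo i (Fin.last n), a 0 i g * a i l h * a l (Fin.last n) k := by
    refine Finset.sum_comm' fun i l => ?_
    simp only [Finset.mem_Ioo]
    constructor
    · rintro ⟨⟨h6, h7⟩, h8, h9⟩
      exact ⟨⟨h9, h7⟩, h8, h9.trans h7⟩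
    · rintro ⟨⟨h6, h7⟩, h8, h9⟩
      exact ⟨⟨h8.trans h6, h7⟩, h8, h6⟩
  rw [h1, h2, h5]
  ring

end

/-- the bound for Massey products, for all maximal `p`-extensions -/
theorem massey_bound {p : ℕ} (hp : p.Prime) (hMS : MSx p) (n : ℕ) :
    ∃ M : ℕ, ∀ (F Ω : Type) [Field F] [Field Ω] [Algebra F Ω], MaxP p F Ω → (∃ ζ : F, IsPrimitiveRoot ζ p) →
      ∀ (φ : Fin n → (Ω ≃ₐ[F] Ω) → ZMod p) (a : Fin (n + 1) → Fin (n + 1) → (Ω ≃ₐ[F] Ω) → ZMod p),
        IsDefiningSystem φ a → SymbolLengthLE (masseyValue a) M := by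
  classical
  haveI : Fact p.Prime := ⟨hp⟩
  haveI : Finite (Matrix (Fin (n + 1)) (Fin (n + 1)) (ZMod p)) := inferInstanceAs (Finite (Fin (n + 1) → Fin (n + 1) → ZMod p))
  obtain ⟨M, hM⟩ := thmC hp hMS ((Matrix (Fin (n + 1)) (Fin (n + 1)) (ZMod p))ˣ × (Matrix (Fin (n + 1)) (Fin (n + 1)) (ZMod p))ˣ)
    (fun x y => ∑ k ∈ Finset.Ioo 0 (Fin.last n), (x.1 : Matrix (Fin (n + 1)) (Fin (n + 1)) (ZMod p)) 0 k *
      (y.2 : Matrix (Fin (n + 1)) (Fin (n + 1)) (ZMod p)) k (Fin.last n))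
  refine ⟨M, ?_⟩
  intro F Ω _ _ _ hMax hζ φ a ⟨ha1, _, ha3⟩
  let SX : Fin (n + 1) → Fin (n + 1) → Prop := fun i j => j ≠ Fin.last n
  let SY : Fin (n + 1) → Fin (n + 1) → Prop := fun i j => i ≠ 0
  have hX : ∀ g h, mS SX a (g * h) = mS SX a g * mS SX a h := by
    refine mS_mul ?_ ?_ ?_
    · intro i j k hik hkj h
      exact ⟨(hkj.trans_le (Fin.le_last j)).ne, h⟩
    · intro i j k hik hkj _ h
      exact h
    · intro i j hij h
      exact ha3 i j hij fun h' => h h'.2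
  have hY : ∀ g h, mS SY a (g * h) = mS SY a g * mS SY a h := by
    refine mS_mul ?_ ?_ ?_
    · intro i j k hik hkj h
      exact ⟨h, ((Fin.zero_le i).trans_lt hik).ne'⟩
    · intro i j k hik hkj h _
      exact h
    · intro i j hij h
      exact ha3 i j hij fun h' => h h'.1
  let ρ := ((rS hX).toHomUnits).prod ((rS hY).toHomUnits)
  have hρ : Cont1 ρ := by
    have h1 : Cont1 (fun g => fun ij : Fin (n + 1) × Fin (n + 1) =>
        (if ij.1 < ij.2 ∧ ¬ (ij.1 = 0 ∧ ij.2 = Fin.last n) then a ij.1 ij.2 g else 0 : ZMod p)) := by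
      refine Cont1.pi fun ij => ?_
      by_cases h : ij.1 < ij.2 ∧ ¬ (ij.1 = 0 ∧ ij.2 = Fin.last n)
      · simp only [if_pos h]
        exact ha1 _ _ h.1 h.2
      · simp only [if_neg h]
        exact cont1_const 0
    refine h1.of_imp fun g g' hg => ?_
    have hgg : ∀ i j, i < j → ¬ (i = 0 ∧ j = Fin.last n) → a i j g = a i j g' := by
      intro i j h2 h3
      have := congrFun hg (i, j)
      simp only at this
      rwa [if_pos ⟨h2, h3⟩, if_pos ⟨h2, h3⟩] at this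
    have hm : ∀ S : Fin (n + 1) → Fin (n + 1) → Prop, (∀ i j, S i j → ¬ (i = 0 ∧ j = Fin.last n)) → mS S a g = mS S a g' := by
      intro S hS
      ext i j
      rcases lt_trichotomy i j with hij | rfl | hij
      · by_cases h : S i j
        · rw [mS_S _ hij h, mS_S _ hij h, hgg i j hij (hS i j h)]
        · rw [mS_nS _ hij h, mS_nS _ hij h]
      · rw [mS_diag, mS_diag]
      · rw [mS_lt _ hij, mS_lt _ hij]
    refine Prod.ext (Units.ext ?_) (Units.ext ?_)
    · exact hm SX fun i j h h' => h h'.2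
    · exact hm SY fun i j h h' => h h'.1
  have hval : ∀ g h, (∑ k ∈ Finset.Ioo 0 (Fin.last n), ((ρ g).1 : Matrix (Fin (n + 1)) (Fin (n + 1)) (ZMod p)) 0 k *
      ((ρ h).2 : Matrix (Fin (n + 1)) (Fin (n + 1)) (ZMod p)) k (Fin.last n)) = masseyValue a g h := by
    intro g h
    refine Finset.sum_congr rfl fun k hk => ?_
    rw [Finset.mem_Ioo] at hk
    change mS SX a g 0 k * mS SY a h k (Fin.last n) = _
    rw [mS_S _ hk.1 hk.2.ne, mS_S _ hk.2 hk.1.ne', neg_mul_neg]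
  have h2 := hM F Ω hMax hζ ρ hρ (fun g h k => by
    simp only [hval]
    exact massey_cocycle ha3 g h k)
  simp only [hval] at h2
  exact h2

end

end Pool.Agent.H403.W
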