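import Mathlib
import Pool.Agent.H403.M.N14

/-! # Crossed products by descent (helper403) -/

set_option autoImplicit false
set_option linter.all false

noncomputable section

namespace Pool.Agent.H403.W

open scoped TensorProduct Kronecker
open Pool.Agent.TH132.W Pool.Agent.Y64.Cyc Pool.Agent.Helper18.Br Pool.Agent.H552R3.SymBr Pool.Agent.H403.M

section
variable {F M : Type} [Field F] [Field M] [Algebra F M] {A : Type} [Ring A] [Algebra F A] [Algebra.IsCentral F A]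
  [IsSimpleRing A] [FiniteDimensional F A] {w : Type} [Fintype w] [DecidableEq w]

/-- cocycle data over the base field -/
theorem corP_mk [Fintype (F →ₐ[F] M)] (ι : A →ₐ[F] Matrix w w M) (hA : Module.finrank F A = Fintype.card w ^ 2)
    (P Q : (M ≃ₐ[F] M) → Matrix w w M) (c : (M ≃ₐ[F] M) → (M ≃ₐ[F] M) → M) (hPQ : ∀ g, P g * Q g = 1)
    (hP : ∀ g a, P g * (ι a).map g = ι a * P g) (hc : ∀ g h, P g * (P h).map g = c g h • P (g * h)) :
    CorP (L := F) (brauerClass F A) c := by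
  refine ⟨A, inferInstance, inferInstance, inferInstance, inferInstance, inferInstance, w, inferInstance,
    inferInstance, rfl, hA, ⟨fun _ => (ι : A →+* Matrix w w M), fun k l => sc_of_algHom ι k l, fun g _ => P g,
      fun g _ => Q g, fun g _ => hPQ g, fun g _ a => hP g a, fun g h _ => c g h, fun g h _ => hc g h⟩, ?_⟩
  intro g h
  haveI : Subsingleton (F →ₐ[F] M) := inferInstance
  haveI : Unique (F →ₐ[F] M) := uniqueOfSubsingleton (Algebra.ofId F M)
  rw [Fintype.prod_unique]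

end

section
variable {F M : Type} [Field F] [Field M] [Algebra F M]

/-- `e_h ↦ γ(g,h) e_{gh}` -/
def pM (γ : (M ≃ₐ[F] M) → (M ≃ₐ[F] M) → M) (g : M ≃ₐ[F] M) : Matrix (M ≃ₐ[F] M) (M ≃ₐ[F] M) M :=
  open Classical in Matrix.of fun i j => if i = g * j then γ g j else 0

/-- its inverse -/
def qM (γ : (M ≃ₐ[F] M) → (M ≃ₐ[F] M) → M) (g : M ≃ₐ[F] M) : Matrix (M ≃ₐ[F] M) (M ≃ₐ[F] M) M :=
  open Classical in Matrix.of fun i j => if j = g * i then (γ g i)⁻¹ else 0

variable [Fintype (M ≃ₐ[F] M)] [DecidableEq (M ≃ₐ[F] M)] {γ : (M ≃ₐ[F] M) → (M ≃ₐ[F] M) → M}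

theorem pM_qM (h0 : ∀ g h, γ g h ≠ 0) (g : M ≃ₐ[F] M) : pM γ g * qM γ g = 1 := by
  classical
  ext i k
  rw [Matrix.mul_apply, Finset.sum_eq_single (g⁻¹ * i)]
  · unfold pM qM
    rw [Matrix.of_apply, Matrix.of_apply, if_pos (mul_inv_cancel_left g i).symm, mul_inv_cancel_left]
    by_cases h : k = i
    · rw [if_pos h, h, Matrix.one_apply_eq, mul_inv_cancel₀ (h0 _ _)]
    · rw [if_neg h, mul_zero, Matrix.one_apply_ne (Ne.symm h)]
  · intro j _ hj
    have : i ≠ g * j := by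
      rintro rfl
      exact hj (inv_mul_cancel_left g j).symm
    unfold pM
    rw [Matrix.of_apply, if_neg this, zero_mul]
  · intro h
    exact absurd (Finset.mem_univ _) h

theorem pM_mul (hγ : ∀ g h k, g (γ h k) * γ g (h * k) = γ g h * γ (g * h) k) (g h : M ≃ₐ[F] M) :
    pM γ g * (pM γ h).map g = γ g h • pM γ (g * h) := by
  classical
  ext i k
  rw [Matrix.mul_apply, Finset.sum_eq_single (h * k)]
  · unfold pM
    rw [Matrix.of_apply, Matrix.map_apply, Matrix.of_apply, if_pos rfl, Matrix.smul_apply, Matrix.of_apply, mul_assoc g h k]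
    by_cases hi : i = g * (h * k)
    · rw [if_pos hi, if_pos hi, smul_eq_mul, ← hγ, mul_comm]
    · rw [if_neg hi, if_neg hi, zero_mul, smul_zero]
  · intro j _ hj
    unfold pM
    rw [Matrix.map_apply, Matrix.of_apply, Matrix.of_apply, if_neg hj, map_zero, mul_zero]
  · intro h
    exact absurd (Finset.mem_univ _) h

theorem qM_pM (h0 : ∀ g h, γ g h ≠ 0) (g : M ≃ₐ[F] M) : qM γ g * pM γ g = 1 := mul_eq_one_comm.1 (pM_qM h0 g)

theorem gam_one (h0 : ∀ g h, γ g h ≠ 0) (hγ : ∀ g h k, g (γ h k) * γ g (h * k) = γ g h * γ (g * h) k) (k : M ≃ₐ[F] M) :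
    γ 1 k = γ 1 1 := by
  have := hγ 1 1 k
  rw [one_mul, one_mul] at this
  exact mul_right_cancel₀ (h0 1 k) this

theorem pM_one (h0 : ∀ g h, γ g h ≠ 0) (hγ : ∀ g h k, g (γ h k) * γ g (h * k) = γ g h * γ (g * h) k) :
    pM γ 1 = γ 1 1 • (1 : Matrix (M ≃ₐ[F] M) (M ≃ₐ[F] M) M) := by
  classical
  ext i j
  unfold pM
  rw [Matrix.of_apply, one_mul, gam_one h0 hγ, Matrix.smul_apply, smul_eq_mul]
  by_cases h : i = j
  · rw [if_pos h, h, Matrix.one_apply_eq, mul_one]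
  · rw [if_neg h, Matrix.one_apply_ne h, mul_zero]

theorem qM_mul (h0 : ∀ g h, γ g h ≠ 0) (hγ : ∀ g h k, g (γ h k) * γ g (h * k) = γ g h * γ (g * h) k) (g h : M ≃ₐ[F] M) :
    (qM γ h).map g * qM γ g = (γ g h)⁻¹ • qM γ (g * h) := by
  have h1 : pM γ g * (pM γ h).map g * ((qM γ h).map g * qM γ g) = 1 := by
    rw [mul_assoc, ← mul_assoc ((pM γ h).map g), ← map_gmul, pM_qM h0, map_one_g, one_mul, pM_qM h0]
  have h2 : (γ g h)⁻¹ • qM γ (g * h) * (pM γ g * (pM γ h).map g) = 1 := by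
    rw [pM_mul hγ, Matrix.smul_mul, Matrix.mul_smul, smul_smul, inv_mul_cancel₀ (h0 _ _), one_smul, qM_pM h0]
  calc (qM γ h).map g * qM γ g = ((γ g h)⁻¹ • qM γ (g * h) * (pM γ g * (pM γ h).map g)) * ((qM γ h).map g * qM γ g) := by
        rw [h2, one_mul]
    _ = _ := by rw [mul_assoc, h1, mul_one]

variable (F γ) in
/-- the crossed product algebra -/
def crA : Subalgebra F (Matrix (M ≃ₐ[F] M) (M ≃ₐ[F] M) M) where
  carrier := {X | ∀ g, pM γ g * X.map g = X * pM γ g}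
  mul_mem' := by
    intro X Y hX hY g
    rw [map_gmul, ← mul_assoc, hX, mul_assoc, hY, mul_assoc]
  add_mem' := by
    intro X Y hX hY g
    rw [Matrix.map_add _ (map_add g), mul_add, hX, hY, add_mul]
  algebraMap_mem' := by
    intro r g
    rw [IsScalarTower.algebraMap_apply F M (Matrix (M ≃ₐ[F] M) (M ≃ₐ[F] M) M), scM_map, g.commutes, scM_comm]

theorem mem_crA {X : Matrix (M ≃ₐ[F] M) (M ≃ₐ[F] M) M} : X ∈ crA F γ ↔ ∀ g, pM γ g * X.map g = X * pM γ g := Iff.rfl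

/-- vector of entries -/
def vc (X : Matrix (M ≃ₐ[F] M) (M ≃ₐ[F] M) M) : (M ≃ₐ[F] M) × (M ≃ₐ[F] M) → M := fun ij => X ij.1 ij.2

/-- descent basis -/
theorem exists_basis [FiniteDimensional F M] (h0 : ∀ g h, γ g h ≠ 0)
    (hγ : ∀ g h k, g (γ h k) * γ g (h * k) = γ g h * γ (g * h) k) :
    ∃ (b : (M ≃ₐ[F] M) × (M ≃ₐ[F] M) → Matrix (M ≃ₐ[F] M) (M ≃ₐ[F] M) M)
      (co : Matrix (M ≃ₐ[F] M) (M ≃ₐ[F] M) M →ₗ[M] ((M ≃ₐ[F] M) × (M ≃ₐ[F] M) → M)),
      (∀ c, b c ∈ crA F γ) ∧ (∀ X, X = ∑ c, co X c • b c) ∧ (∀ x : (M ≃ₐ[F] M) × (M ≃ₐ[F] M) → M, co (∑ c, x c • b c) = x) ∧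
      (∀ X ∈ crA F γ, ∀ c (g : M ≃ₐ[F] M), g (co X c) = co X c) := by
  classical
  let D : (M ≃ₐ[F] M) → Matrix ((M ≃ₐ[F] M) × (M ≃ₐ[F] M)) ((M ≃ₐ[F] M) × (M ≃ₐ[F] M)) M :=
    fun g => pM γ g ⊗ₖ (qM γ g).transpose
  have hD1 : D 1 = 1 := by
    have h1 : qM γ 1 = (γ 1 1)⁻¹ • (1 : Matrix (M ≃ₐ[F] M) (M ≃ₐ[F] M) M) := by
      have h2 := qM_pM h0 (1 : M ≃ₐ[F] M)
      rw [pM_one h0 hγ, Matrix.mul_smul, mul_one] at h2
      rw [← h2, smul_smul, inv_mul_cancel₀ (h0 _ _), one_smul]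
    change pM γ 1 ⊗ₖ (qM γ 1).transpose = 1
    rw [pM_one h0 hγ, h1, Matrix.transpose_smul, Matrix.transpose_one, Matrix.smul_kronecker, Matrix.kronecker_smul,
      smul_smul, mul_inv_cancel₀ (h0 _ _), one_smul, Matrix.one_kronecker_one]
  have hD : ∀ g h, D g * (D h).map g = D (g * h) := by
    intro g h
    change (pM γ g ⊗ₖ (qM γ g).transpose) * (pM γ h ⊗ₖ (qM γ h).transpose).map g = pM γ (g * h) ⊗ₖ (qM γ (g * h)).transpose
    rw [map_kronG, ← Matrix.mul_kronecker_mul, pM_mul hγ, Matrix.transpose_map, ← Matrix.transpose_mul, qM_mul h0 hγ,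
      Matrix.transpose_smul, Matrix.smul_kronecker, Matrix.kronecker_smul, smul_smul, mul_inv_cancel₀ (h0 _ _), one_smul]
  obtain ⟨B, B', hBB', hB'B, hB⟩ := hilb90 D hD1 hD
  have hB'g : ∀ g : M ≃ₐ[F] M, B'.map g = B' * D g := by
    intro g
    have e1 : (B' * D g) * B.map g = 1 := by rw [mul_assoc, hB, hB'B]
    have e2 : B.map g * B'.map g = 1 := by rw [← map_gmul, hBB', map_one_g]
    calc B'.map g = (B' * D g) * B.map g * B'.map g := by rw [e1, one_mul]
      _ = B' * D g := by rw [mul_assoc, e2, mul_one]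
  -- the action in coordinates
  have hact : ∀ (g : M ≃ₐ[F] M) (X : Matrix (M ≃ₐ[F] M) (M ≃ₐ[F] M) M),
      (D g).mulVec (fun c => g (vc X c)) = vc (pM γ g * X.map g * qM γ g) := by
    intro g X
    funext ⟨i, j⟩
    change ∑ kl : (M ≃ₐ[F] M) × (M ≃ₐ[F] M), (pM γ g i kl.1 * qM γ g kl.2 j) * g (X kl.1 kl.2) = (pM γ g * X.map g * qM γ g) i j
    rw [Fintype.sum_prod_type, Matrix.mul_apply, Finset.sum_comm]
    refine Finset.sum_congr rfl fun l _ => ?_
    rw [Matrix.mul_apply, Finset.sum_mul]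
    refine Finset.sum_congr rfl fun k _ => ?_
    rw [Matrix.map_apply]
    ring
  let co : Matrix (M ≃ₐ[F] M) (M ≃ₐ[F] M) M →ₗ[M] ((M ≃ₐ[F] M) × (M ≃ₐ[F] M) → M) :=
    { toFun := fun X => B'.mulVec (vc X)
      map_add' := fun X Y => by
        rw [← Matrix.mulVec_add]
        rfl
      map_smul' := fun a X => by
        rw [RingHom.id_apply, ← Matrix.mulVec_smul]
        rfl }
  let b : (M ≃ₐ[F] M) × (M ≃ₐ[F] M) → Matrix (M ≃ₐ[F] M) (M ≃ₐ[F] M) M := fun c => Matrix.of fun i j => B (i, j) c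
  have hvb : ∀ x : (M ≃ₐ[F] M) × (M ≃ₐ[F] M) → M, vc (∑ c, x c • b c) = B.mulVec x := by
    intro x
    funext ⟨i, j⟩
    change (∑ c, x c • b c) i j = ∑ c, B (i, j) c * x c
    rw [Matrix.sum_apply]
    refine Finset.sum_congr rfl fun c _ => ?_
    rw [Matrix.smul_apply, smul_eq_mul, mul_comm]
    rfl
  refine ⟨b, co, ?_, ?_, ?_, ?_⟩
  · intro c
    rw [mem_crA]
    intro g
    have h3 : pM γ g * (b c).map g * qM γ g = b c := by
      have h4 := hact g (b c)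
      have h5 : (D g).mulVec (fun d => g (vc (b c) d)) = vc (b c) := by
        funext ij
        have h6 := congrFun (congrFun (hB g) ij) c
        exact h6
      rw [h5] at h4
      ext i j
      exact (congrFun h4 (i, j)).symm
    calc pM γ g * (b c).map g = pM γ g * (b c).map g * (qM γ g * pM γ g) := by rw [qM_pM h0, mul_one]
      _ = b c * pM γ g := by rw [← mul_assoc, h3]
  · intro X
    have h3 : vc (∑ c, co X c • b c) = vc X := by
      rw [hvb]
      change B.mulVec (B'.mulVec (vc X)) = vc X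
      rw [Matrix.mulVec_mulVec, hBB', Matrix.one_mulVec]
    ext i j
    exact (congrFun h3 (i, j)).symm
  · intro x
    change B'.mulVec (vc (∑ c, x c • b c)) = x
    rw [hvb, Matrix.mulVec_mulVec, hB'B, Matrix.one_mulVec]
  · intro X hX c g
    have h3 : pM γ g * X.map g * qM γ g = X := by
      rw [mem_crA.1 hX, mul_assoc, pM_qM h0, mul_one]
    have h4 := hact g X
    rw [h3] at h4
    have h5 : g ((B'.mulVec (vc X)) c) = ((B'.map g).mulVec (fun d => g (vc X d))) c := by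
      change g (∑ d, B' c d * vc X d) = ∑ d, g (B' c d) * g (vc X d)
      rw [map_sum]
      exact Finset.sum_congr rfl fun d _ => map_mul g _ _
    change g ((B'.mulVec (vc X)) c) = (B'.mulVec (vc X)) c
    rw [h5, hB'g, ← Matrix.mulVec_mulVec, h4]

end

end Pool.Agent.H403.W
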