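import Mathlib
import Pool.Agent.H403.W.X1

/-! # Crossed products are central simple; inflation of cocycles (helper403) -/

set_option autoImplicit false
set_option linter.all false

noncomputable section

namespace Pool.Agent.H403.W

open scoped TensorProduct Kronecker
open Pool.Agent.TH132.W Pool.Agent.Y64.Cyc Pool.Agent.Helper18.Br Pool.Agent.H552R3.SymBr Pool.Agent.H403.M

section
variable {F M : Type} [Field F] [Field M] [Algebra F M] [FiniteDimensional F M] [IsGalois F M]
  [Fintype (M ≃ₐ[F] M)] [DecidableEq (M ≃ₐ[F] M)] {γ : (M ≃ₐ[F] M) → (M ≃ₐ[F] M) → M}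

abbrev MM (F M : Type) [Field F] [Field M] [Algebra F M] : Type := Matrix (M ≃ₐ[F] M) (M ≃ₐ[F] M) M

theorem exists_cr (h0 : ∀ g h, γ g h ≠ 0)
    (hγ : ∀ g h k, g (γ h k) * γ g (h * k) = γ g h * γ (g * h) k) [Fintype (F →ₐ[F] M)] :
    ∃ z : BrauerGroup.{0, 0} F, CorP (L := F) z γ := by
  classical
  obtain ⟨b, co, hb, hsum, hco, hfix⟩ := exists_basis (F := F) h0 hγ
  have hco' : ∀ X ∈ crA F γ, ∀ c, ∃ y : F, algebraMap F M y = co X c := by
    intro X hX c
    have h1 : co X c ∈ Set.range (algebraMap F M) := by
      rw [IsGalois.mem_range_algebraMap_iff_fixed]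
      exact hfix X hX c
    exact h1
  let bA : (M ≃ₐ[F] M) × (M ≃ₐ[F] M) → crA F γ := fun c => ⟨b c, hb c⟩
  let f : ((M ≃ₐ[F] M) × (M ≃ₐ[F] M) → F) →ₗ[F] crA F γ :=
    { toFun := fun x => ∑ c, x c • bA c
      map_add' := fun x y => by
        rw [← Finset.sum_add_distrib]
        exact Finset.sum_congr rfl fun c _ => add_smul _ _ _
      map_smul' := fun a x => by
        rw [RingHom.id_apply, Finset.smul_sum]
        exact Finset.sum_congr rfl fun c _ => mul_smul _ _ _ }
  have hfv : ∀ x, ((f x : crA F γ) : MM F M) = ∑ c, (algebraMap F M (x c)) • b c := by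
    intro x
    change ((∑ c, x c • bA c : crA F γ) : MM F M) = _
    rw [AddSubmonoidClass.coe_finset_sum]
    refine Finset.sum_congr rfl fun c _ => ?_
    rw [algebraMap_smul]
    rfl
  have hfbij : Function.Bijective f := by
    constructor
    · rw [injective_iff_map_eq_zero]
      intro x hx
      have h1 := hfv x
      rw [hx] at h1
      have h2 := hco (fun c => algebraMap F M (x c))
      rw [← h1] at h2
      change co 0 = _ at h2
      rw [map_zero] at h2
      funext c
      have h3 := congrFun h2 c
      exact (map_eq_zero (algebraMap F M)).1 h3.symm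
    · intro X
      choose y hy using hco' X.1 X.2
      refine ⟨y, Subtype.ext ?_⟩
      rw [hfv]
      conv_rhs => rw [hsum X.1]
      exact Finset.sum_congr rfl fun c _ => by rw [hy]
  let e := LinearEquiv.ofBijective f hfbij
  haveI hfd : FiniteDimensional F (crA F γ) := Module.Finite.equiv e
  have hfr : Module.finrank F (crA F γ) = Fintype.card (M ≃ₐ[F] M) ^ 2 := by
    rw [← e.finrank_eq, Module.finrank_fintype_fun_eq_card, Fintype.card_prod, sq]
  haveI : Nonempty (M ≃ₐ[F] M) := ⟨1⟩
  haveI hcen : Algebra.IsCentral F (crA F γ) := by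
    refine ⟨?_⟩
    intro X hX
    rw [Subalgebra.mem_center_iff] at hX
    have hcomm : ∀ N : MM F M, X.1 * N = N * X.1 := by
      intro N
      rw [hsum N, Finset.mul_sum, Finset.sum_mul]
      refine Finset.sum_congr rfl fun c _ => ?_
      rw [Matrix.mul_smul, Matrix.smul_mul]
      congr 1
      exact (congrArg Subtype.val (hX (bA c))).symm
    have hsc : X.1 ∈ Set.range (Matrix.scalar (M ≃ₐ[F] M)) :=
      Matrix.mem_range_scalar_of_commute_single (fun i j _ => (hcomm _).symm)
    obtain ⟨x, hx⟩ := hsc
    have hx' : X.1 = algebraMap M (MM F M) x := hx.symm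
    have hgx : ∀ g : M ≃ₐ[F] M, g x = x := by
      intro g
      have h1 := mem_crA.1 X.2 g
      rw [hx', scM_map, ← scM_comm] at h1
      have h2 := congrArg (fun Z : MM F M => Z * qM γ g) h1
      simp only [mul_assoc, pM_qM h0, mul_one] at h2
      have h3 := congrFun (congrFun h2 1) 1
      rw [Matrix.algebraMap_matrix_apply, Matrix.algebraMap_matrix_apply, if_pos rfl, if_pos rfl] at h3
      exact h3
    have hxr : x ∈ Set.range (algebraMap F M) := by
      rw [IsGalois.mem_range_algebraMap_iff_fixed]
      exact hgx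
    obtain ⟨y, rfl⟩ := hxr
    rw [Algebra.mem_bot]
    refine ⟨y, Subtype.ext ?_⟩
    rw [hx', ← IsScalarTower.algebraMap_apply]
    rfl
  obtain ⟨lam, hlam⟩ := (Algebra.linearMap F M).exists_leftInverse_of_injective (LinearMap.ker_eq_bot.2 (algebraMap F M).injective)
  have hlam1 : ∀ y : F, lam (algebraMap F M y) = y := fun y => LinearMap.congr_fun hlam y
  haveI hntA : Nontrivial (crA F γ) := by
    refine ⟨⟨0, 1, fun h => ?_⟩⟩
    have h1 := congrFun (congrFun (congrArg Subtype.val h) 1) 1
    change (0 : M) = (1 : MM F M) 1 1 at h1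
    rw [Matrix.one_apply_eq] at h1
    exact zero_ne_one h1
  haveI hsim : IsSimpleRing (crA F γ) := by
    refine IsSimpleRing.of_eq_bot_or_eq_top fun I => ?_
    by_cases hI : I = ⊥
    · exact Or.inl hI
    · right
      rw [← I.one_mem_iff]
      obtain ⟨X, hXI, hX0⟩ : ∃ X ∈ I, X ≠ 0 := by
        by_contra hcon
        push Not at hcon
        apply hI
        refine le_antisymm ?_ bot_le
        intro X hX
        rw [hcon X hX]
        exact (⊥ : TwoSidedIdeal (crA F γ)).zero_mem
      let J : Submodule M (MM F M) := Submodule.span M ((fun Y : crA F γ => (Y : MM F M)) '' {Y | Y ∈ I})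
      have hJI : ∀ Y ∈ I, (Y : MM F M) ∈ J := fun Y hY => Submodule.subset_span ⟨Y, hY, rfl⟩
      have hJl : ∀ Z W : MM F M, W ∈ J → Z * W ∈ J := by
        intro Z W hW
        induction hW using Submodule.span_induction with
        | mem W hW =>
          obtain ⟨Y, hY, rfl⟩ := hW
          rw [hsum Z, Finset.sum_mul]
          refine J.sum_mem fun c _ => ?_
          rw [Matrix.smul_mul]
          exact J.smul_mem _ (hJI (bA c * Y) (I.mul_mem_left _ _ hY))
        | zero => rw [mul_zero]; exact J.zero_mem
        | add W W' _ _ h h' => rw [mul_add]; exact J.add_mem h h'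
        | smul a W _ h => rw [Matrix.mul_smul]; exact J.smul_mem _ h
      have hJr : ∀ Z W : MM F M, W ∈ J → W * Z ∈ J := by
        intro Z W hW
        induction hW using Submodule.span_induction with
        | mem W hW =>
          obtain ⟨Y, hY, rfl⟩ := hW
          rw [hsum Z, Finset.mul_sum]
          refine J.sum_mem fun c _ => ?_
          rw [Matrix.mul_smul]
          exact J.smul_mem _ (hJI (Y * bA c) (I.mul_mem_right _ _ hY))
        | zero => rw [zero_mul]; exact J.zero_mem
        | add W W' _ _ h h' => rw [add_mul]; exact J.add_mem h h'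
        | smul a W _ h => rw [Matrix.smul_mul]; exact J.smul_mem _ h
      let JI : TwoSidedIdeal (MM F M) := TwoSidedIdeal.mk' (J : Set (MM F M)) J.zero_mem (fun h h' => J.add_mem h h')
        (fun h => J.neg_mem h) (fun {x y} h => hJl x y h) (fun {x y} h => hJr y x h)
      have hmemJ : ∀ Z, Z ∈ JI ↔ Z ∈ J := fun Z => by
        rw [TwoSidedIdeal.mem_mk']
        rfl
      have h1J : (1 : MM F M) ∈ J := by
        rw [← hmemJ]
        refine IsSimpleRing.one_mem_of_ne_zero_mem JI (x := (X : MM F M)) (fun h => hX0 (Subtype.ext h)) ?_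
        rw [hmemJ]
        exact hJI X hXI
      -- the retraction
      let Λ : MM F M → crA F γ := fun Z => ∑ c, lam (co Z c) • bA c
      have hΛadd : ∀ Z W, Λ (Z + W) = Λ Z + Λ W := by
        intro Z W
        change ∑ c, _ = ∑ c, _ + ∑ c, _
        rw [← Finset.sum_add_distrib]
        refine Finset.sum_congr rfl fun c _ => ?_
        rw [map_add, Pi.add_apply, map_add, add_smul]
      have hΛA : ∀ (Y : crA F γ) (m : M), Λ (m • (Y : MM F M)) = lam m • Y := by
        intro Y m
        choose y hy using hco' Y.1 Y.2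
        have hY : Y = ∑ c, y c • bA c := by
          apply Subtype.ext
          have := hfv y
          change ((∑ c, y c • bA c : crA F γ) : MM F M) = _ at this
          rw [this]
          conv_lhs => rw [hsum Y.1]
          exact Finset.sum_congr rfl fun c _ => by rw [hy]
        change ∑ c, lam (co (m • (Y : MM F M)) c) • bA c = _
        conv_rhs => rw [hY, Finset.smul_sum]
        refine Finset.sum_congr rfl fun c _ => ?_
        rw [map_smul, Pi.smul_apply, smul_eq_mul, ← hy c, smul_smul]
        congr 1
        rw [mul_comm, ← Algebra.smul_def, map_smul, smul_eq_mul, mul_comm]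
      have hΛJ : ∀ Z ∈ J, ∀ m : M, Λ (m • Z) ∈ I := by
        intro Z hZ
        induction hZ using Submodule.span_induction with
        | mem W hW =>
          obtain ⟨Y, hY, rfl⟩ := hW
          intro m
          change Λ (m • (Y : MM F M)) ∈ I
          rw [hΛA, Algebra.smul_def]
          exact I.mul_mem_left _ _ hY
        | zero =>
          intro m
          have := hΛA 0 m
          change Λ (m • (0 : MM F M)) = _ at this
          rw [this, smul_zero]
          exact I.zero_mem
        | add W W' _ _ h h' =>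
          intro m
          rw [smul_add, hΛadd]
          exact I.add_mem (h m) (h' m)
        | smul a W _ h =>
          intro m
          rw [smul_smul]
          exact h _
      have h2 := hΛJ 1 h1J 1
      have h3 := hΛA 1 1
      change Λ ((1 : M) • (1 : MM F M)) = _ at h3
      rw [h3, ← map_one (algebraMap F M), hlam1, one_smul] at h2
      exact h2
  exact ⟨_, corP_mk (crA F γ).val hfr (pM γ) (qM γ) γ (pM_qM h0) (fun g a => mem_crA.1 a.2 g) (pM_mul hγ)⟩

end

/-- inflation -/
theorem corP_infl {F M M' : Type} [Field F] [Field M] [Algebra F M] [Field M'] [Algebra F M'] [Fintype (F →ₐ[F] M)]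
    [Fintype (F →ₐ[F] M')] (j : M →ₐ[F] M') (res : (M' ≃ₐ[F] M') → (M ≃ₐ[F] M)) (hres : ∀ g x, g (j x) = j (res g x))
    {z : BrauerGroup.{0, 0} F} {γ : (M ≃ₐ[F] M) → (M ≃ₐ[F] M) → M} (h : CorP (L := F) z γ) :
    CorP (L := F) z (fun g h => j (γ (res g) (res h))) := by
  obtain ⟨C, _, _, _, _, _, w, _, _, hz, hC, S, hS⟩ := h
  haveI : Subsingleton (F →ₐ[F] M) := inferInstance
  haveI : Subsingleton (F →ₐ[F] M') := inferInstance
  let k0 : F →ₐ[F] M := Algebra.ofId F M
  have hk : ∀ k : F →ₐ[F] M, k = k0 := fun k => Subsingleton.elim _ _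
  have hrm : ∀ g h : M' ≃ₐ[F] M', res (g * h) = res g * res h := by
    intro g h
    ext x
    have e : j (res (g * h) x) = j ((res g * res h) x) := by
      rw [← hres]
      change g (h (j x)) = j (res g (res h x))
      rw [hres, hres]
    exact j.injective e
  have hmap : ∀ (g : M' ≃ₐ[F] M') (X : Matrix w w M), (X.map j).map g = (X.map (res g)).map j := by
    intro g X
    ext a b
    exact hres g _
  refine ⟨C, inferInstance, inferInstance, inferInstance, inferInstance, inferInstance, w, inferInstance,
    inferInstance, hz, hC, ⟨fun _ => ((j : M →+* M').mapMatrix).comp (S.ι k0), ?_, fun g _ => (S.P (res g) k0).map j,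
      fun g _ => (S.Q (res g) k0).map j, ?_, ?_, fun g h _ => j (S.c (res g) (res h) k0), ?_⟩, ?_⟩
  · intro k l
    change (S.ι k0 (algebraMap F C l)).map j = _
    rw [S.sc]
    ext a b
    rw [Matrix.map_apply, Matrix.algebraMap_matrix_apply, Matrix.algebraMap_matrix_apply]
    split_ifs
    · change j (k0 l) = k l
      rw [show k = (j.comp k0) from Subsingleton.elim _ _]
      rfl
    · exact map_zero j
  · intro g _
    rw [← Matrix.map_mul, S.PQ]
    exact Matrix.map_one j (map_zero j) (map_one j)
  · intro g k c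
    change (S.P (res g) k0).map j * ((S.ι k0 c).map j).map g = (S.ι k0 c).map j * (S.P (res g) k0).map j
    rw [hmap, ← Matrix.map_mul, ← Matrix.map_mul, S.comm, hk (ga (res g) k0)]
  · intro g h k
    change (S.P (res g) k0).map j * ((S.P (res h) k0).map j).map g = j (S.c (res g) (res h) k0) • (S.P (res (g * h)) k0).map j
    have h1 := S.hc (res g) (res h) k0
    rw [hk (ga (res h) k0)] at h1
    rw [hmap, ← Matrix.map_mul, h1, hrm]
    ext a b
    rw [Matrix.map_apply, Matrix.smul_apply, Matrix.smul_apply, Matrix.map_apply, smul_eq_mul, smul_eq_mul, map_mul]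
  · intro g h
    haveI : Unique (F →ₐ[F] M) := ⟨⟨k0⟩, hk⟩
    haveI : Unique (F →ₐ[F] M') := uniqueOfSubsingleton (Algebra.ofId F M')
    change j (γ (res g) (res h)) = _
    rw [Fintype.prod_unique, hS, Fintype.prod_unique, hk default]

end Pool.Agent.H403.W
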