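import Mathlib
import Pool.Agent.H403.W.X2
import Pool.Agent.H403.W.W8

/-! # The Merkurjev theorem in the cohomology of the maximal pro-`2` quotient (helper403) -/

set_option autoImplicit false
set_option linter.all false

noncomputable section

namespace Pool.Agent.H403.W

open scoped TensorProduct Kronecker
open IntermediateField
open Pool.Agent.TH132.W Pool.Agent.Y64.Cyc Pool.Agent.Helper18.Br Pool.Agent.H552R3.SymBr Pool.Agent.Helper346.Bra Pool.Agent.H403.M

/-- the sign of a class modulo two -/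
def sg2 (M : Type) [Field M] (x : ZMod 2) : M := if x = 0 then 1 else -1

section
variable {M : Type} [Field M]

theorem sg2_zero : sg2 M 0 = 1 := if_pos rfl
theorem sg2_one : sg2 M 1 = -1 := if_neg (by decide)

theorem zmod2_cases (x : ZMod 2) : x = 0 ∨ x = 1 := by
  revert x
  decide

theorem sg2_add (x y : ZMod 2) : sg2 M (x + y) = sg2 M x * sg2 M y := by
  rcases zmod2_cases x with rfl | rfl <;> rcases zmod2_cases y with rfl | rfl
  · rw [add_zero, sg2_zero, one_mul]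
  · rw [zero_add, sg2_zero, one_mul]
  · rw [add_zero, sg2_zero, mul_one]
  · rw [show (1 : ZMod 2) + 1 = 0 by decide, sg2_zero, sg2_one, neg_one_mul, neg_neg]

theorem sg2_sq (x : ZMod 2) : sg2 M x * sg2 M x = 1 := by
  rcases zmod2_cases x with rfl | rfl
  · rw [sg2_zero, one_mul]
  · rw [sg2_one, neg_one_mul, neg_neg]

theorem sg2_ne (x : ZMod 2) : sg2 M x ≠ 0 := by
  intro h
  have := sg2_sq (M := M) x
  rw [h, zero_mul] at this
  exact zero_ne_one this

theorem sg2_inj (h2 : (2 : M) ≠ 0) {x y : ZMod 2} (h : sg2 M x = sg2 M y) : x = y := by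
  rcases zmod2_cases x with rfl | rfl <;> rcases zmod2_cases y with rfl | rfl
  · rfl
  · rw [sg2_zero, sg2_one] at h
    exact absurd (by linear_combination h : (2 : M) = 0) h2
  · rw [sg2_zero, sg2_one] at h
    exact absurd (by linear_combination -h : (2 : M) = 0) h2
  · rfl

theorem sg2_map {M' : Type} [Field M'] (φ : M →+* M') (x : ZMod 2) : φ (sg2 M x) = sg2 M' x := by
  rcases zmod2_cases x with rfl | rfl
  · rw [sg2_zero, sg2_zero, map_one]
  · rw [sg2_one, sg2_one, map_neg, map_one]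

theorem sg2_sum {ι : Type} (T : Finset ι) (f : ι → ZMod 2) : ∏ i ∈ T, sg2 M (f i) = sg2 M (∑ i ∈ T, f i) := by
  classical
  induction T using Finset.induction_on with
  | empty => rw [Finset.prod_empty, Finset.sum_empty, sg2_zero]
  | insert i T hi ih => rw [Finset.prod_insert hi, Finset.sum_insert hi, ih, sg2_add]

/-- units of the integers from classes modulo two -/
def uz (x : ZMod 2) : ℤˣ := if x = 0 then 1 else -1

theorem uz_zero : uz 0 = 1 := if_pos rfl
theorem uz_one : uz 1 = -1 := if_neg (by decide)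

theorem sgn_uz (x : ZMod 2) : sgn M (uz x) = sg2 M x := by
  rcases zmod2_cases x with rfl | rfl
  · rw [sg2_zero, uz_zero, map_one]
  · rw [sg2_one, uz_one, sgn_neg]

theorem prg_uz (x y : ZMod 2) : prg M (uz x) (uz y) = sg2 M (x * y) := by
  unfold prg
  rcases zmod2_cases y with rfl | rfl
  · rw [uz_zero, map_one, mul_zero, sg2_zero]
  · rw [uz_one, i2_neg, mul_one, sgn_uz]

end

section
variable {F Ω : Type} [Field F] [Field Ω] [Algebra F Ω]

/-- a square root of an element of the base field defines a character -/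
theorem exists_char (h2 : (2 : Ω) ≠ 0) (halg : Algebra.IsAlgebraic F Ω) (s : Ω) (a : F) (hs : s * s = algebraMap F Ω a) (hs0 : s ≠ 0) :
    ∃ ψ : (Ω ≃ₐ[F] Ω) → ZMod 2, IsH1 ψ ∧ ∀ g, g s = sg2 Ω (ψ g) * s := by
  have h1 : ∀ g : Ω ≃ₐ[F] Ω, ∃ x : ZMod 2, g s = sg2 Ω x * s := by
    intro g
    have h3 : g s * g s = s * s := by rw [← map_mul, hs, g.commutes]
    rcases mul_self_eq_mul_self_iff.1 h3 with h | h
    · exact ⟨0, by rw [sg2_zero, one_mul, h]⟩
    · exact ⟨1, by rw [sg2_one, neg_one_mul, h]⟩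
  choose ψ hψ using h1
  refine ⟨ψ, ⟨⟨F⟮s⟯, IntermediateField.adjoin.finiteDimensional (Algebra.IsIntegral.isIntegral _), fun g g' h => ?_⟩, ?_⟩, hψ⟩
  · have h4 := h s (mem_adjoin_simple_self F s)
    rw [hψ, hψ] at h4
    exact sg2_inj h2 (mul_right_cancel₀ hs0 h4)
  · intro g h
    apply sg2_inj h2
    apply mul_right_cancel₀ hs0
    rw [← hψ, sg2_add]
    change g (h s) = _
    rw [hψ h, map_mul, hψ g, show g (sg2 Ω (ψ h)) = sg2 Ω (ψ h) from sg2_map (g : Ω →+* Ω) _]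
    ring

theorem class_of [IsGalois F Ω] (N : IntermediateField F Ω) [FiniteDimensional F N] [IsGalois F N]
    (c : (Ω ≃ₐ[F] Ω) → (Ω ≃ₐ[F] Ω) → ZMod 2)
    (hcN : ∀ g g' h h' : Ω ≃ₐ[F] Ω, (∀ x ∈ N, g x = g' x) → (∀ x ∈ N, h x = h' x) → c g h = c g' h')
    (hcoc : ∀ g h k, c h k - c (g * h) k + c g (h * k) - c g h = 0) :
    ∃ z : BrauerGroup.{0, 0} F, z * z = 1 ∧ ∀ (N' : IntermediateField F Ω) [FiniteDimensional F N'] [IsGalois F N']
      [Fintype (F →ₐ[F] N')], N ≤ N' →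
      ∃ γ' : (N' ≃ₐ[F] N') → (N' ≃ₐ[F] N') → N', CorP (L := F) (M := N') z γ' ∧
        ∀ g h : Ω ≃ₐ[F] Ω, γ' (AlgEquiv.restrictNormalHom N' g) (AlgEquiv.restrictNormalHom N' h) = sg2 N' (c g h) := by
  classical
  have hres : ∀ (K : IntermediateField F Ω) [IsGalois F K] (g : Ω ≃ₐ[F] Ω) (x : K),
      ((AlgEquiv.restrictNormalHom K g x : K) : Ω) = g x := fun K _ g x => AlgEquiv.restrictNormal_commutes g K x
  have hsurj : ∀ (K : IntermediateField F Ω) [IsGalois F K], Function.Surjective (AlgEquiv.restrictNormalHom K : (Ω ≃ₐ[F] Ω) →* (K ≃ₐ[F] K)) :=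
    fun K _ => AlgEquiv.restrictNormalHom_surjective Ω
  let lift : ∀ (K : IntermediateField F Ω) [IsGalois F K], (K ≃ₐ[F] K) → (Ω ≃ₐ[F] Ω) := fun K _ => Function.surjInv (hsurj K)
  have hlift : ∀ (K : IntermediateField F Ω) [IsGalois F K] (a : K ≃ₐ[F] K), AlgEquiv.restrictNormalHom K (lift K a) = a :=
    fun K _ => Function.surjInv_eq (hsurj K)
  have hlx : ∀ (K : IntermediateField F Ω) [IsGalois F K] (a : K ≃ₐ[F] K) (x : K), lift K a x = ((a x : K) : Ω) := by
    intro K _ a x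
    rw [← hres, hlift]
  have hlr : ∀ (K : IntermediateField F Ω) [IsGalois F K] (g : Ω ≃ₐ[F] Ω), ∀ x ∈ K, lift K (AlgEquiv.restrictNormalHom K g) x = g x := by
    intro K _ g x hx
    rw [hlx K _ ⟨x, hx⟩, hres]
  let γ : (N ≃ₐ[F] N) → (N ≃ₐ[F] N) → N := fun a b => sg2 N (c (lift N a) (lift N b))
  have h0 : ∀ a b, γ a b ≠ 0 := fun a b => sg2_ne _
  have hlm : ∀ a b : N ≃ₐ[F] N, ∀ x ∈ N, lift N (a * b) x = (lift N a * lift N b) x := by
    intro a b x hx
    rw [hlx N _ ⟨x, hx⟩]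
    change _ = lift N a (lift N b x)
    rw [hlx N b ⟨x, hx⟩, hlx N a]
    rfl
  have hγ : ∀ a b d, a (γ b d) * γ a (b * d) = γ a b * γ (a * b) d := by
    intro a b d
    change a (sg2 N (c (lift N b) (lift N d))) * sg2 N (c (lift N a) (lift N (b * d))) =
      sg2 N (c (lift N a) (lift N b)) * sg2 N (c (lift N (a * b)) (lift N d))
    rw [show a (sg2 N (c (lift N b) (lift N d))) = sg2 N (c (lift N b) (lift N d)) from sg2_map (a : N →+* N) _,
      ← sg2_add, ← sg2_add, hcN (lift N a) (lift N a) (lift N (b * d)) (lift N b * lift N d) (fun _ _ => rfl) (hlm b d),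
      hcN (lift N (a * b)) (lift N a * lift N b) (lift N d) (lift N d) (hlm a b) (fun _ _ => rfl)]
    congr 1
    linear_combination hcoc (lift N a) (lift N b) (lift N d)
  obtain ⟨z, hz⟩ := exists_cr h0 hγ
  refine ⟨z, ?_, ?_⟩
  · have h1 := hz.mul hz
    refine corP_cob h1 ⟨fun _ => 1, fun _ => one_ne_zero, fun a b => ?_⟩
    change sg2 N (c (lift N a) (lift N b)) * sg2 N (c (lift N a) (lift N b)) * 1 = 1 * a 1
    rw [sg2_sq, map_one]
  · intro N' _ _ _ hNN'
    let j : N →ₐ[F] N' := IntermediateField.inclusion hNN'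
    have h1 := corP_infl j (fun a => AlgEquiv.restrictNormalHom N (lift N' a)) (fun a x => by
      apply Subtype.ext
      change ((a (j x) : N') : Ω) = (((AlgEquiv.restrictNormalHom N (lift N' a)) x : N) : Ω)
      rw [hres, ← hlx]
      rfl) hz
    refine ⟨_, h1, fun g h => ?_⟩
    change j (sg2 N (c _ _)) = _
    rw [show j (sg2 N _) = sg2 N' _ from sg2_map (j : N →+* N') _]
    congr 1
    refine hcN _ _ _ _ ?_ ?_
    · intro x hx
      rw [hlr N _ x hx, hlr N' g x (hNN' hx)]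
    · intro x hx
      rw [hlr N _ x hx, hlr N' h x (hNN' hx)]

/-- the cocycle of a quaternion algebra over a field containing the square roots -/
theorem corP_qa [IsGalois F Ω] (h2 : (2 : F) ≠ 0) (N' : IntermediateField F Ω) [FiniteDimensional F N'] [IsGalois F N']
    [Fintype (F →ₐ[F] N')] (a b : Fˣ) (s t : Ω) (hs : s * s = algebraMap F Ω a) (ht : t * t = algebraMap F Ω b)
    (hsN : s ∈ N') (htN : t ∈ N') (ψ ψ' : (Ω ≃ₐ[F] Ω) → ZMod 2) (hψ : ∀ g, g s = sg2 Ω (ψ g) * s)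
    (hψ' : ∀ g, g t = sg2 Ω (ψ' g) * t) :
    ∃ γ : (N' ≃ₐ[F] N') → (N' ≃ₐ[F] N') → N', CorP (L := F) (M := N') (qa h2 a b) γ ∧
      ∀ g h : Ω ≃ₐ[F] Ω, γ (AlgEquiv.restrictNormalHom N' g) (AlgEquiv.restrictNormalHom N' h) = sg2 N' (ψ' g * ψ h) := by
  classical
  have h2Ω : (2 : Ω) ≠ 0 := two_ne_map (algebraMap F Ω) h2
  have h2N : (2 : N') ≠ 0 := two_ne_map (algebraMap F N') h2
  have hs0 : s ≠ 0 := by
    rintro rfl
    rw [mul_zero] at hs
    exact a.ne_zero ((map_eq_zero _).1 hs.symm)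
  have ht0 : t ≠ 0 := by
    rintro rfl
    rw [mul_zero] at ht
    exact b.ne_zero ((map_eq_zero _).1 ht.symm)
  have hres : ∀ (g : Ω ≃ₐ[F] Ω) (x : N'),
      ((AlgEquiv.restrictNormalHom N' g x : N') : Ω) = g x := fun g x => AlgEquiv.restrictNormal_commutes g N' x
  have hsurj : Function.Surjective (AlgEquiv.restrictNormalHom N' : (Ω ≃ₐ[F] Ω) →* (N' ≃ₐ[F] N')) :=
    AlgEquiv.restrictNormalHom_surjective Ω
  let lift : (N' ≃ₐ[F] N') → (Ω ≃ₐ[F] Ω) := Function.surjInv hsurj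
  have hlift : ∀ (g : N' ≃ₐ[F] N'), AlgEquiv.restrictNormalHom N' (lift g) = g := Function.surjInv_eq hsurj
  have hlx : ∀ (g : N' ≃ₐ[F] N') (x : N'), lift g x = ((g x : N') : Ω) := by
    intro g x
    rw [← hres, hlift]
  let S : N' := ⟨s, hsN⟩
  let T : N' := ⟨t, htN⟩
  let A : (F →ₐ[F] N') → N' := fun _ => S
  let B : (F →ₐ[F] N') → N' := fun _ => T
  have hkx : ∀ (k : F →ₐ[F] N') (x : F), (((k : F →+* N') x : N') : Ω) = algebraMap F Ω x := by
    intro k x
    have : (k : F →+* N') x = algebraMap F N' x := k.commutes x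
    rw [this]
    rfl
  have hA : ∀ k : F →ₐ[F] N', A k * A k = (k : F →+* N') a := by
    intro k
    apply Subtype.ext
    rw [hkx]
    exact hs
  have hB : ∀ k : F →ₐ[F] N', B k * B k = (k : F →+* N') b := by
    intro k
    apply Subtype.ext
    rw [hkx]
    exact ht
  have hsgN : ∀ x : ZMod 2, ((sg2 N' x : N') : Ω) = sg2 Ω x := fun x => sg2_map (algebraMap N' Ω) x
  have hgS : ∀ g : N' ≃ₐ[F] N', g S = sg2 N' (ψ (lift g)) * S := by
    intro g
    apply Subtype.ext
    rw [← hlx]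
    change lift g s = ((sg2 N' (ψ (lift g)) : N') : Ω) * s
    rw [hψ, hsgN]
  have hgT : ∀ g : N' ≃ₐ[F] N', g T = sg2 N' (ψ' (lift g)) * T := by
    intro g
    apply Subtype.ext
    rw [← hlx]
    change lift g t = ((sg2 N' (ψ' (lift g)) : N') : Ω) * t
    rw [hψ', hsgN]
  let σ : (N' ≃ₐ[F] N') → (F →ₐ[F] N') → ℤˣ := fun g _ => uz (ψ (lift g))
  let τ : (N' ≃ₐ[F] N') → (F →ₐ[F] N') → ℤˣ := fun g _ => uz (ψ' (lift g))
  have hσ : ∀ g k, g (A k) = sgn N' (σ g k) * A (ga g k) := by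
    intro g k
    change g S = sgn N' (uz (ψ (lift g))) * S
    rw [sgn_uz, hgS]
  have hτ : ∀ g k, g (B k) = sgn N' (τ g k) * B (ga g k) := by
    intro g k
    change g T = sgn N' (uz (ψ' (lift g))) * T
    rw [sgn_uz, hgT]
  have hS0 : S ≠ 0 := fun h => hs0 (congrArg Subtype.val h)
  have hT0 : T ≠ 0 := fun h => ht0 (congrArg Subtype.val h)
  have hσc := sgn_cocycle h2N A (fun _ => hS0) σ hσ
  have hτc := sgn_cocycle h2N B (fun _ => hT0) τ hτ
  have hcsa := symb_csa 2 two_pos (-1) (a : F) (b : F) (prim_of_two h2) (n_ne_zero two_pos (prim_of_two h2)) a.ne_zero b.ne_zero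
  haveI := hcsa.1
  haveI := hcsa.2.1
  haveI := hcsa.2.2.1
  refine ⟨fun g h => ∏ k : F →ₐ[F] N', prg N' (τ g (ga h k)) (σ h k), ⟨Symb F 2 (-1) (a : F) (b : F), inferInstance, inferInstance,
    inferInstance, inferInstance, inferInstance, Fin 2, inferInstance, inferInstance, rfl, ?_,
    quatSpd (a : F) (b : F) A B hA hB σ τ hσ hτ hσc hτc, fun g h => rfl⟩, ?_⟩
  · rw [hcsa.2.2.2, Fintype.card_fin]
  · intro g h
    haveI : Subsingleton (F →ₐ[F] N') := inferInstance
    haveI : Unique (F →ₐ[F] N') := uniqueOfSubsingleton (Algebra.ofId F N')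
    change ∏ k : F →ₐ[F] N', prg N' (uz (ψ' (lift (AlgEquiv.restrictNormalHom N' g)))) (uz (ψ (lift (AlgEquiv.restrictNormalHom N' h)))) = _
    rw [Fintype.prod_unique, prg_uz]
    have e1 : ψ' (lift (AlgEquiv.restrictNormalHom N' g)) = ψ' g := by
      apply sg2_inj h2Ω
      apply mul_right_cancel₀ ht0
      rw [← hψ', ← hψ']
      rw [hlx _ T, hres]
    have e2 : ψ (lift (AlgEquiv.restrictNormalHom N' h)) = ψ h := by
      apply sg2_inj h2Ω
      apply mul_right_cancel₀ hs0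
      rw [← hψ, ← hψ]
      rw [hlx _ S, hres]
    rw [e1, e2]

end

end Pool.Agent.H403.W
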