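import Mathlib
import Pool.Agent.H403.W.X3

/-! # The Merkurjev theorem in the cohomology of the maximal pro-`2` quotient, II (helper403) -/

set_option autoImplicit false
set_option linter.all false

noncomputable section

namespace Pool.Agent.H403.W

open scoped TensorProduct Kronecker
open IntermediateField
open Pool.Agent.TH132.W Pool.Agent.Y64.Cyc Pool.Agent.Helper18.Br Pool.Agent.H552R3.SymBr Pool.Agent.Helper346.Bra Pool.Agent.H403.M

theorem QQ_fin {F : Type} [Field F] (h2 : (2 : F) ≠ 0) {x : BrauerGroup.{0, 0} F} (hx : x ∈ QQ h2) :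
    ∃ (m : ℕ) (a b : Fin m → Fˣ), x = ∏ i, qa h2 (a i) (b i) := by
  obtain ⟨L, hL⟩ := QQ_prod h2 hx
  refine ⟨L.length, fun i => (L.get i).1, fun i => (L.get i).2, ?_⟩
  rw [hL]
  have h1 := List.prod_ofFn (f := fun i : Fin L.length => qa h2 (L.get i).1 (L.get i).2)
  rw [← h1]
  congr 1
  rw [← List.ofFn_get (L.map fun p => qa h2 p.1 p.2)]
  apply List.ext_get
  · simp
  · intro n h h'
    simp

/-- the Merkurjev theorem -/
theorem ms2 : MSx 2 := by
  classical
  intro F Ω _ _ _ hM ⟨ζ, hζ⟩ c ⟨⟨E, hE, hcE⟩, hcoc⟩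
  haveI := hM.gal
  haveI : NeZero (2 : ℕ) := ⟨two_ne_zero⟩
  have h2 : (2 : F) ≠ 0 := by
    haveI := hζ.neZero'
    have := NeZero.ne ((2 : ℕ) : F)
    exact_mod_cast this
  have h2Ω : (2 : Ω) ≠ 0 := two_ne_map (algebraMap F Ω) h2
  have halg : Algebra.IsAlgebraic F Ω := inferInstance
  obtain ⟨θ, hθ⟩ := exists_gen E
  let N := FiniteGaloisIntermediateField.adjoin F ({θ} : Set Ω)
  have hEN : E ≤ N.toIntermediateField := by
    rw [hθ, adjoin_simple_le_iff]
    exact FiniteGaloisIntermediateField.subset_adjoin F _ (Set.mem_singleton θ)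
  obtain ⟨z, hzz, hz⟩ := class_of N.toIntermediateField c
    (fun g g' h h' h1 h3 => hcE g g' h h' (fun x hx => h1 x (hEN hx)) (fun x hx => h3 x (hEN hx))) hcoc
  obtain ⟨m, a, b, hab⟩ := QQ_fin h2 (T1 (twoSplit_of_sq h2 z hzz) h2 hzz)
  have hsq : ∀ x : Fˣ, ∃ s : Ω, s * s = algebraMap F Ω x ∧ s ≠ 0 := by
    intro x
    obtain ⟨s, hs⟩ := hM.root (algebraMap F Ω x)
    refine ⟨s, by rw [← sq, hs], ?_⟩
    rintro rfl
    rw [zero_pow two_ne_zero] at hs
    exact x.ne_zero ((map_eq_zero _).1 hs.symm)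
  choose s hs hs0 using fun i => hsq (a i)
  choose t ht ht0 using fun i => hsq (b i)
  choose ψ hψ1 hψ using fun i => exists_char h2Ω halg (s i) (a i : F) (hs i) (hs0 i)
  choose ψ' hψ1' hψ' using fun i => exists_char h2Ω halg (t i) (b i : F) (ht i) (ht0 i)
  let N' := FiniteGaloisIntermediateField.adjoin F ({θ} ∪ Set.range s ∪ Set.range t : Set Ω)
  have hsub : ({θ} ∪ Set.range s ∪ Set.range t : Set Ω) ⊆ N'.toIntermediateField := FiniteGaloisIntermediateField.subset_adjoin F _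
  have hNN' : N.toIntermediateField ≤ N'.toIntermediateField := by
    have : N ≤ N' := by
      rw [FiniteGaloisIntermediateField.adjoin_simple_le_iff]
      exact hsub (Or.inl (Or.inl rfl))
    exact this
  have hsN : ∀ i, s i ∈ N'.toIntermediateField := fun i => hsub (Or.inl (Or.inr ⟨i, rfl⟩))
  have htN : ∀ i, t i ∈ N'.toIntermediateField := fun i => hsub (Or.inr ⟨i, rfl⟩)
  generalize hK : N'.toIntermediateField = K at hNN' hsN htN
  haveI hKfd : FiniteDimensional F K := by rw [← hK]; infer_instance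
  haveI hKg : IsGalois F K := by rw [← hK]; infer_instance
  obtain ⟨γ0, hγ0, hγ0c⟩ := hz K hNN'
  choose γ hγ hγc using fun i => corP_qa h2 K (a i) (b i) (s i) (t i) (hs i) (ht i) (hsN i) (htN i) (ψ i) (ψ' i) (hψ i) (hψ' i)
  have hprod : ∀ T : Finset (Fin m), CorP (L := F) (M := K) (z * ∏ i ∈ T, qa h2 (a i) (b i)) (fun g h => γ0 g h * ∏ i ∈ T, γ i g h) := by
    intro T
    induction T using Finset.induction_on with
    | empty =>
      simp only [Finset.prod_empty, mul_one]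
      exact hγ0
    | insert i T hi ih =>
      have h3 := ih.mul (hγ i)
      simp only [Finset.prod_insert hi]
      have e1 : z * (∏ j ∈ T, qa h2 (a j) (b j)) * qa h2 (a i) (b i) = z * (qa h2 (a i) (b i) * ∏ j ∈ T, qa h2 (a j) (b j)) := by
        rw [mul_assoc, mul_comm (∏ j ∈ T, qa h2 (a j) (b j))]
      have e2 : (fun g h => γ0 g h * (∏ j ∈ T, γ j g h) * γ i g h) = fun g h => γ0 g h * (γ i g h * ∏ j ∈ T, γ j g h) := by
        funext g h
        ring
      rw [e1, e2] at h3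
      exact h3
  have hall := hprod Finset.univ
  rw [← hab, hzz] at hall
  obtain ⟨ν, hν0, hν⟩ := corP_one hall
  have hres : ∀ (g : Ω ≃ₐ[F] Ω) (x : K), ((AlgEquiv.restrictNormalHom K g x : K) : Ω) = g x :=
    fun g x => AlgEquiv.restrictNormal_commutes g K x
  have hsurj : Function.Surjective (AlgEquiv.restrictNormalHom K : (Ω ≃ₐ[F] Ω) →* (K ≃ₐ[F] K)) :=
    AlgEquiv.restrictNormalHom_surjective Ω
  have htot : ∀ g h : Ω ≃ₐ[F] Ω, sg2 K (c g h + ∑ i, ψ' i g * ψ i h) * ν (AlgEquiv.restrictNormalHom K (g * h)) =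
      ν (AlgEquiv.restrictNormalHom K g) * (AlgEquiv.restrictNormalHom K g) (ν (AlgEquiv.restrictNormalHom K h)) := by
    intro g h
    have h4 : γ0 (AlgEquiv.restrictNormalHom K g) (AlgEquiv.restrictNormalHom K h) *
        (∏ i, γ i (AlgEquiv.restrictNormalHom K g) (AlgEquiv.restrictNormalHom K h)) *
        ν (AlgEquiv.restrictNormalHom K g * AlgEquiv.restrictNormalHom K h) =
      ν (AlgEquiv.restrictNormalHom K g) * (AlgEquiv.restrictNormalHom K g) (ν (AlgEquiv.restrictNormalHom K h)) := hν _ _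
    have h5 : (∏ i, γ i (AlgEquiv.restrictNormalHom K g) (AlgEquiv.restrictNormalHom K h)) = ∏ i, sg2 K (ψ' i g * ψ i h) :=
      Finset.prod_congr rfl fun i _ => hγc i g h
    rw [map_mul, ← h4, hγ0c, sg2_add, h5, sg2_sum]
  -- Hilbert 90
  have hν2 : ∀ g h : K ≃ₐ[F] K, ν g ^ 2 * g (ν h ^ 2) = ν (g * h) ^ 2 := by
    intro g h
    obtain ⟨g, rfl⟩ := hsurj g
    obtain ⟨h, rfl⟩ := hsurj h
    rw [map_pow, ← mul_pow, ← htot, mul_pow, ← map_mul, sq (sg2 K _), sg2_sq, one_mul]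
  have hν1 : ν 1 ^ 2 = 1 := by
    have h3 := hν2 1 1
    rw [one_mul] at h3
    change ν 1 ^ 2 * ν 1 ^ 2 = ν 1 ^ 2 at h3
    exact mul_left_cancel₀ (pow_ne_zero 2 (hν0 1)) (h3.trans (mul_one _).symm)
  obtain ⟨B, B', hBB', hB'B, hB⟩ := hilb90 (w := Unit) (fun g : K ≃ₐ[F] K => Matrix.of fun _ _ => ν g ^ 2)
    (by
      refine Matrix.ext fun i j => ?_
      change ν 1 ^ 2 = (1 : Matrix Unit Unit K) i j
      rw [hν1, Matrix.one_apply, if_pos rfl])
    (by
      intro g h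
      refine Matrix.ext fun i j => ?_
      rw [Matrix.mul_apply, Fintype.sum_unique]
      exact hν2 g h)
  set β := B () () with hβ
  have hββ : β * B' () () = 1 := by
    have := congrFun (congrFun hBB' ()) ()
    rw [Matrix.mul_apply, Fintype.sum_unique, Matrix.one_apply_eq] at this
    exact this
  have hβ0 : β ≠ 0 := by
    intro h0
    rw [h0, zero_mul] at hββ
    exact zero_ne_one hββ
  have hβg : ∀ g : K ≃ₐ[F] K, ν g ^ 2 * g β = β := by
    intro g
    have := congrFun (congrFun (hB g) ()) ()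
    rw [Matrix.mul_apply, Fintype.sum_unique] at this
    exact this
  obtain ⟨r, hr⟩ := hM.root ((β : Ω)⁻¹)
  have hβΩ : (β : Ω) ≠ 0 := fun h => hβ0 (Subtype.ext h)
  have hr0 : r ≠ 0 := by
    rintro rfl
    rw [zero_pow two_ne_zero] at hr
    exact inv_ne_zero hβΩ hr.symm
  have hgr : ∀ g : Ω ≃ₐ[F] Ω, ∃ x : ZMod 2, g r = sg2 Ω x * (((ν (AlgEquiv.restrictNormalHom K g) : K) : Ω) * r) := by
    intro g
    have h3 := congrArg (fun x : K => (x : Ω)) (hβg (AlgEquiv.restrictNormalHom K g))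
    simp only [MulMemClass.coe_mul, SubmonoidClass.coe_pow] at h3
    rw [hres] at h3
    have h4 : g r * g r = (((ν (AlgEquiv.restrictNormalHom K g) : K) : Ω) * r) * (((ν (AlgEquiv.restrictNormalHom K g) : K) : Ω) * r) := by
      rw [← sq, ← map_pow, hr, map_inv₀]
      have h5 : (((ν (AlgEquiv.restrictNormalHom K g) : K) : Ω) * r) * (((ν (AlgEquiv.restrictNormalHom K g) : K) : Ω) * r) =
          ((ν (AlgEquiv.restrictNormalHom K g) : K) : Ω) ^ 2 * r ^ 2 := by ring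
      rw [h5, hr]
      have h6 : g (β : Ω) ≠ 0 := (map_ne_zero g).2 hβΩ
      rw [eq_mul_inv_iff_mul_eq₀ hβΩ]
      calc (g (β : Ω))⁻¹ * (β : Ω) = (g (β : Ω))⁻¹ * (((ν (AlgEquiv.restrictNormalHom K g) : K) : Ω) ^ 2 * g (β : Ω)) := by rw [h3]
        _ = ((ν (AlgEquiv.restrictNormalHom K g) : K) : Ω) ^ 2 := by field_simp
    rcases mul_self_eq_mul_self_iff.1 h4 with h | h
    · exact ⟨0, by rw [sg2_zero, one_mul, h]⟩
    · exact ⟨1, by rw [sg2_one, neg_one_mul, h]⟩
  choose bb hbb using hgr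
  refine ⟨m, ψ', ψ, hψ1', hψ1, bb, ?_, ?_⟩
  · haveI hr1 : FiniteDimensional F F⟮r⟯ := IntermediateField.adjoin.finiteDimensional (Algebra.IsIntegral.isIntegral _)
    refine ⟨K ⊔ F⟮r⟯, inferInstance, fun g g' h => ?_⟩
    have e1 : AlgEquiv.restrictNormalHom K g = AlgEquiv.restrictNormalHom K g' := by
      ext x
      rw [hres, hres]
      exact h x ((le_sup_left : K ≤ K ⊔ F⟮r⟯) x.2)
    have e2 := h r ((le_sup_right : F⟮r⟯ ≤ K ⊔ F⟮r⟯) (mem_adjoin_simple_self F r))
    rw [hbb g, hbb g', e1] at e2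
    have e3 : (((ν (AlgEquiv.restrictNormalHom K g') : K) : Ω) * r) ≠ 0 := mul_ne_zero (fun h => hν0 _ (Subtype.ext h)) hr0
    exact sg2_inj h2Ω (mul_right_cancel₀ e3 e2)
  · intro g h
    have e1 : g (h r) = (g * h) r := rfl
    rw [hbb (g * h), hbb h, map_mul, map_mul, hbb g, show g (sg2 Ω (bb h)) = sg2 Ω (bb h) from sg2_map (g : Ω →+* Ω) _,
      ← hres] at e1
    have e2 := congrArg (fun x : K => (x : Ω)) (htot g h)
    simp only [MulMemClass.coe_mul] at e2
    have e3 : ((sg2 K (c g h + ∑ i, ψ' i g * ψ i h) : K) : Ω) = sg2 Ω (c g h + ∑ i, ψ' i g * ψ i h) :=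
      sg2_map (algebraMap K Ω) _
    rw [e3] at e2
    have e4 : (((ν (AlgEquiv.restrictNormalHom K (g * h)) : K) : Ω) * r) ≠ 0 := mul_ne_zero (fun h => hν0 _ (Subtype.ext h)) hr0
    have e5 : sg2 Ω (bb g + bb h + (c g h + ∑ i, ψ' i g * ψ i h)) * (((ν (AlgEquiv.restrictNormalHom K (g * h)) : K) : Ω) * r) =
        sg2 Ω (bb (g * h)) * (((ν (AlgEquiv.restrictNormalHom K (g * h)) : K) : Ω) * r) := by
      rw [← e1, sg2_add, sg2_add]
      linear_combination (sg2 Ω (bb g) * sg2 Ω (bb h) * r) * e2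
    have e6 := sg2_inj h2Ω (mul_right_cancel₀ e4 e5)
    have h22 : (2 : ZMod 2) = 0 := by decide
    linear_combination e6 + (-(∑ i, ψ' i g * ψ i h) - bb g - bb h + bb (g * h)) * h22

end Pool.Agent.H403.W
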