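import Mathlib
import Pool.Agent.H403.W.X4

/-! # Uniqueness of the maximal `p`-extension (helper403) -/

set_option autoImplicit false
set_option linter.all false

noncomputable section

namespace Pool.Agent.H403.W
open Polynomial IntermediateField

section
variable {p : ℕ} {F Ω : Type} [Field F] [Field Ω] [Algebra F Ω]

theorem PS_of_maxP (hM : MaxP p F Ω) (N : IntermediateField F Ω) [FiniteDimensional F N] [IsGalois F N] : PS p N := by
  refine ⟨inferInstance, inferInstance, ?_⟩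
  obtain ⟨α, hα⟩ := Field.exists_primitive_element F N
  rw [Field.primitive_element_iff_minpoly_natDegree_eq] at hα
  obtain ⟨k, hk⟩ := hM.deg α
  exact ⟨k, by rw [← hα, IntermediateField.minpoly_eq, hk]⟩

/-- a cyclic layer of degree `p` above the part of `K` in `R` -/
theorem le_of_closed (hp : p.Prime) {ζ : F} (hζ : IsPrimitiveRoot ζ p) (R K : IntermediateField F Ω) (hK : PS p K)
    (hR : ∀ x ∈ R, ∃ y ∈ R, y ^ p = x) : K ≤ R := by
  classical
  haveI : Fact p.Prime := ⟨hp⟩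
  obtain ⟨h1, h2, k, hk⟩ := hK
  let D : IntermediateField F K := IntermediateField.comap K.val R
  have hD : ∀ x : K, x ∈ D ↔ (x : Ω) ∈ R := fun x => Iff.rfl
  by_contra hcon
  have hDtop : D ≠ ⊤ := by
    intro h
    apply hcon
    intro x hx
    have : (⟨x, hx⟩ : K) ∈ D := by rw [h]; exact IntermediateField.mem_top
    exact this
  have hfr : Module.finrank D K ∣ p ^ k := by
    rw [← hk]
    exact Dvd.intro_left _ (Module.finrank_mul_finrank F D K)
  obtain ⟨m, _, hm⟩ := (Nat.dvd_prime_pow hp).1 hfr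
  have hm0 : m ≠ 0 := by
    rintro rfl
    rw [pow_zero] at hm
    apply hDtop
    exact IntermediateField.finrank_eq_one_iff_eq_top.1 hm
  obtain ⟨m, rfl⟩ := Nat.exists_eq_succ_of_ne_zero hm0
  have hcard : Nat.card (K ≃ₐ[D] K) = p ^ (m + 1) := by rw [IsGalois.card_aut_eq_finrank, hm]
  obtain ⟨H, hH⟩ := Sylow.exists_subgroup_card_pow_prime (G := K ≃ₐ[D] K) p (n := m) (by rw [hcard]; exact pow_dvd_pow p (Nat.le_succ m))
  have hidx : H.index = p := by
    have h3 := H.card_mul_index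
    rw [hH, hcard, pow_succ] at h3
    exact Nat.eq_of_mul_eq_mul_left (pow_pos hp.pos m) h3
  haveI hnorm : H.Normal := by
    apply Subgroup.normal_of_index_eq_minFac_card
    rw [hidx, hcard, Nat.Prime.pow_minFac hp (Nat.succ_ne_zero m)]
  let E := IntermediateField.fixedField H
  have hEK : Module.finrank E K = p ^ m := by rw [IntermediateField.finrank_fixedField_eq_card, hH]
  have hDE : Module.finrank D E = p := by
    have h3 := Module.finrank_mul_finrank D E K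
    rw [hEK, hm, pow_succ, mul_comm] at h3
    exact Nat.eq_of_mul_eq_mul_left (pow_pos hp.pos m) h3
  haveI hgal : IsGalois D E := IsGalois.of_fixedField_normal_subgroup H
  haveI hcyc : IsCyclic (E ≃ₐ[D] E) := isCyclic_of_prime_card (p := p) (by rw [IsGalois.card_aut_eq_finrank, hDE])
  have hζD : IsPrimitiveRoot (algebraMap F D ζ) p := hζ.map_of_injective (algebraMap F D).injective
  obtain ⟨α, ⟨d, hd⟩, hα⟩ := exists_root_adjoin_eq_top_of_isCyclic (K := D) (L := E)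
    ⟨algebraMap F D ζ, by rw [hDE]; exact (mem_primitiveRoots hp.pos).2 hζD⟩
  rw [hDE] at hd
  have hαD : (α : K) ∈ D := by
    rw [hD]
    have h4 : (((α : K) : Ω)) ^ p ∈ R := by
      have h5 : ((algebraMap D E d : E) : K) = (α : K) ^ p := congrArg Subtype.val hd
      have h6 : (((algebraMap D E d : E) : K) : Ω) = ((α : K) : Ω) ^ p := by rw [h5]; rfl
      rw [← h6]
      exact d.2
    obtain ⟨y, hyR, hy⟩ := hR _ h4
    by_cases ha0 : ((α : K) : Ω) = 0
    · rw [ha0]; exact R.zero_mem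
    have hy0 : y ≠ 0 := by
      rintro rfl
      rw [zero_pow hp.ne_zero] at hy
      exact ha0 ((pow_eq_zero_iff hp.ne_zero).1 hy.symm)
    have h5 : (((α : K) : Ω) / y) ^ p = 1 := by rw [div_pow, hy, div_self (pow_ne_zero _ ha0)]
    haveI : NeZero p := ⟨hp.ne_zero⟩
    have hζ' : IsPrimitiveRoot (algebraMap F Ω ζ) p := hζ.map_of_injective (algebraMap F Ω).injective
    obtain ⟨i, _, hi⟩ := hζ'.eq_pow_of_pow_eq_one h5
    have : ((α : K) : Ω) = (algebraMap F Ω ζ) ^ i * y := by rw [hi, div_mul_cancel₀ _ hy0]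
    rw [this]
    exact R.mul_mem (pow_mem (R.algebraMap_mem ζ) i) hyR
  have hbot : α ∈ (⊥ : IntermediateField D E) := by
    rw [IntermediateField.mem_bot]
    exact ⟨⟨(α : K), hαD⟩, Subtype.ext rfl⟩
  have h7 : (⊥ : IntermediateField D E) = ⊤ := by
    rw [← hα]
    exact (IntermediateField.adjoin_simple_eq_bot_iff.2 hbot).symm
  have h8 : Module.finrank D E = 1 := by
    rw [← IntermediateField.finrank_top', ← h7, IntermediateField.finrank_bot]
  rw [hDE] at h8
  exact hp.one_lt.ne' h8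

end

theorem maxP_equiv {p : ℕ} (hp : p.Prime) {F Ω : Type} [Field F] [Field Ω] [Algebra F Ω] {ζ : F}
    (hζ : IsPrimitiveRoot ζ p) (hM : MaxP p F Ω) : Nonempty (Ω ≃ₐ[F] maxPExt p F) := by
  haveI := hM.gal
  have halg : Algebra.IsAlgebraic F Ω := inferInstance
  let j : Ω →ₐ[F] AlgebraicClosure F := IsAlgClosed.lift
  let R := j.fieldRange
  have hRroot : ∀ x ∈ R, ∃ y ∈ R, y ^ p = x := by
    rintro _ ⟨x, rfl⟩
    obtain ⟨y, hy⟩ := hM.root x
    exact ⟨j y, ⟨y, rfl⟩, by rw [← map_pow, hy]; rfl⟩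
  have h1 : R = maxPExt p F := by
    apply le_antisymm
    · rintro _ ⟨x, rfl⟩
      let N := FiniteGaloisIntermediateField.adjoin F ({x} : Set Ω)
      have hx : x ∈ N.toIntermediateField := FiniteGaloisIntermediateField.subset_adjoin F _ (Set.mem_singleton x)
      obtain ⟨a1, a2, k, hk⟩ := PS_of_maxP hM N.toIntermediateField
      let e := IntermediateField.equivMap N.toIntermediateField j
      refine (mem_maxPExt p F hp).2 ⟨N.toIntermediateField.map j, ⟨Module.Finite.equiv e.toLinearEquiv, IsGalois.of_algEquiv e,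
        k, by rw [← e.toLinearEquiv.finrank_eq, hk]⟩, ⟨x, hx, rfl⟩⟩
    · intro x hx
      obtain ⟨K, hK, hxK⟩ := (mem_maxPExt p F hp).1 hx
      exact le_of_closed hp hζ R K hK hRroot hxK
  exact ⟨(AlgEquiv.ofInjectiveField j).trans (IntermediateField.equivOfEq h1)⟩

section transport
variable {p : ℕ} {F Ω Ω' : Type} [Field F] [Field Ω] [Algebra F Ω] [Field Ω'] [Algebra F Ω']

theorem cont1_transport (e : Ω ≃ₐ[F] Ω') {X : Type} {f : (Ω' ≃ₐ[F] Ω') → X} (h : Cont1 f) :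
    Cont1 (fun g : Ω ≃ₐ[F] Ω => f (e.symm.trans (g.trans e))) := by
  obtain ⟨E, hE, hf⟩ := h
  refine ⟨E.map (e.symm : Ω' →ₐ[F] Ω), ?_, fun g g' hg => hf _ _ fun x hx => ?_⟩
  · exact Module.Finite.equiv (IntermediateField.equivMap E (e.symm : Ω' →ₐ[F] Ω)).toLinearEquiv
  · change e (g (e.symm x)) = e (g' (e.symm x))
    rw [hg (e.symm x) ⟨x, hx, rfl⟩]

theorem cont2_transport (e : Ω ≃ₐ[F] Ω') {X : Type} {f : (Ω' ≃ₐ[F] Ω') → (Ω' ≃ₐ[F] Ω') → X} (h : Cont2 f) :
    Cont2 (fun g h : Ω ≃ₐ[F] Ω => f (e.symm.trans (g.trans e)) (e.symm.trans (h.trans e))) := by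
  obtain ⟨E, hE, hf⟩ := h
  refine ⟨E.map (e.symm : Ω' →ₐ[F] Ω), ?_, fun g g' h h' hg hh => hf _ _ _ _ (fun x hx => ?_) fun x hx => ?_⟩
  · exact Module.Finite.equiv (IntermediateField.equivMap E (e.symm : Ω' →ₐ[F] Ω)).toLinearEquiv
  · change e (g (e.symm x)) = e (g' (e.symm x))
    rw [hg (e.symm x) ⟨x, hx, rfl⟩]
  · change e (h (e.symm x)) = e (h' (e.symm x))
    rw [hh (e.symm x) ⟨x, hx, rfl⟩]

theorem conj_mul (e : Ω ≃ₐ[F] Ω') (g h : Ω ≃ₐ[F] Ω) :
    e.symm.trans ((g * h).trans e) = (e.symm.trans (g.trans e)) * (e.symm.trans (h.trans e)) := by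
  ext x
  change e (g (h (e.symm x))) = e (g (e.symm (e (h (e.symm x)))))
  rw [e.symm_apply_apply]

theorem conj_conj (e : Ω ≃ₐ[F] Ω') (g : Ω ≃ₐ[F] Ω) : e.symm.symm.trans ((e.symm.trans (g.trans e)).trans e.symm) = g := by
  ext x
  change e.symm (e (g (e.symm (e x)))) = g x
  rw [e.symm_apply_apply, e.symm_apply_apply]

theorem isZ2_transport (e : Ω ≃ₐ[F] Ω') {c : (Ω' ≃ₐ[F] Ω') → (Ω' ≃ₐ[F] Ω') → ZMod p} (h : IsZ2 c) :
    IsZ2 (fun g h : Ω ≃ₐ[F] Ω => c (e.symm.trans (g.trans e)) (e.symm.trans (h.trans e))) := by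
  refine ⟨cont2_transport e h.1, fun a b d => ?_⟩
  have := h.2 (e.symm.trans (a.trans e)) (e.symm.trans (b.trans e)) (e.symm.trans (d.trans e))
  rw [← conj_mul, ← conj_mul] at this
  exact this

theorem isH1_transport (e : Ω ≃ₐ[F] Ω') {c : (Ω' ≃ₐ[F] Ω') → ZMod p} (h : IsH1 c) :
    IsH1 (fun g : Ω ≃ₐ[F] Ω => c (e.symm.trans (g.trans e))) := by
  refine ⟨cont1_transport e h.1, fun a b => ?_⟩
  have := h.2 (e.symm.trans (a.trans e)) (e.symm.trans (b.trans e))
  rw [← conj_mul] at this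
  exact this

theorem symbolLength_transport (e : Ω ≃ₐ[F] Ω') {c : (Ω' ≃ₐ[F] Ω') → (Ω' ≃ₐ[F] Ω') → ZMod p} {m : ℕ}
    (h : SymbolLengthLE c m) :
    SymbolLengthLE (fun g h : Ω ≃ₐ[F] Ω => c (e.symm.trans (g.trans e)) (e.symm.trans (h.trans e))) m := by
  obtain ⟨ψ, ψ', h1, h2, b, hb, h3⟩ := h
  refine ⟨fun i g => ψ i (e.symm.trans (g.trans e)), fun i g => ψ' i (e.symm.trans (g.trans e)),
    fun i => isH1_transport e (h1 i), fun i => isH1_transport e (h2 i), fun g => b (e.symm.trans (g.trans e)),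
    cont1_transport e hb, fun g h => ?_⟩
  have := h3 (e.symm.trans (g.trans e)) (e.symm.trans (h.trans e))
  rw [← conj_mul] at this
  exact this

end transport

theorem MSx_of_ms {p : ℕ} (hp : p.Prime) (h : MerkurjevSuslin p) : MSx p := by
  intro F Ω _ _ _ hM ⟨ζ, hζ⟩ c hc
  obtain ⟨e⟩ := maxP_equiv hp hζ hM
  obtain ⟨m, hm⟩ := h F ⟨ζ, hζ⟩ _ (isZ2_transport e.symm hc)
  refine ⟨m, ?_⟩
  have h1 := symbolLength_transport e hm
  have h2 : (fun g h : Ω ≃ₐ[F] Ω => c (e.symm.symm.trans ((e.symm.trans (g.trans e)).trans e.symm))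
      (e.symm.symm.trans ((e.symm.trans (h.trans e)).trans e.symm))) = c := by
    funext g h
    rw [conj_conj, conj_conj]
  rw [← h2]
  exact h1

theorem bound_of_MSx {p : ℕ} (hp : p.Prime) (h : MSx p) (n : ℕ) : MasseyBound p n := by
  obtain ⟨M, hM⟩ := massey_bound hp h n
  refine ⟨M, fun F _ ⟨ζ, hζ⟩ φ a _ ha => ?_⟩
  exact hM F (maxPExt p F) (maxPExt_maxP p F hp hζ) ⟨ζ, hζ⟩ φ a ha

/-- the main theorem -/
theorem main : (∀ n, MasseyBound 2 n) ∧ ∀ p : ℕ, p.Prime → MerkurjevSuslin p → ∀ n, MasseyBound p n :=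
  ⟨fun n => bound_of_MSx Nat.prime_two ms2 n, fun p hp h n => bound_of_MSx hp (MSx_of_ms hp h) n⟩

end Pool.Agent.H403.W
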